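import Mathlib

/-!
# Blocking red-blue segments: basic lemmas on affine functionals of the plane
-/

namespace Pool.Vis

/-- Points of the plane. -/
abbrev Pt := ℝ × ℝ

/-- An affine functional of the plane, given by its coefficients. -/
structure Fn where
  a : ℝ
  b : ℝ
  c : ℝ

/-- Value of an affine functional. -/
def Fn.ev (f : Fn) (p : Pt) : ℝ := f.a * p.1 + f.b * p.2 + f.c

/-- The functional is not constant. -/
def Fn.NZ (f : Fn) : Prop := f.a ≠ 0 ∨ f.b ≠ 0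

/-- The combination `f + t g`. -/
def Fn.comb (f g : Fn) (t : ℝ) : Fn := ⟨f.a + t * g.a, f.b + t * g.b, f.c + t * g.c⟩

/-- The opposite functional. -/
def Fn.opp (f : Fn) : Fn := ⟨-f.a, -f.b, -f.c⟩

lemma ev_comb (f g : Fn) (t : ℝ) (p : Pt) : (f.comb g t).ev p = f.ev p + t * g.ev p := by
  simp only [Fn.ev, Fn.comb]; ring

lemma ev_opp (f : Fn) (p : Pt) : f.opp.ev p = - f.ev p := by
  simp only [Fn.ev, Fn.opp]; ring

lemma NZ_opp {f : Fn} (h : f.NZ) : f.opp.NZ := by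
  rcases h with h | h
  · exact Or.inl (neg_ne_zero.mpr h)
  · exact Or.inr (neg_ne_zero.mpr h)

lemma ev_seg (f : Fn) {p q z : Pt} (hz : z ∈ openSegment ℝ p q) :
    ∃ s t : ℝ, 0 < s ∧ 0 < t ∧ s + t = 1 ∧ f.ev z = s * f.ev p + t * f.ev q := by
  obtain ⟨s, t, hs, ht, hst, rfl⟩ := hz
  refine ⟨s, t, hs, ht, hst, ?_⟩
  have h : s = 1 - t := by linarith
  subst h
  simp only [Fn.ev, Prod.fst_add, Prod.snd_add, Prod.smul_fst, Prod.smul_snd, smul_eq_mul]
  ring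

lemma seg_neg_l (f : Fn) {p q z : Pt} (hz : z ∈ openSegment ℝ p q) (hp : f.ev p < 0)
    (hq : f.ev q ≤ 0) : f.ev z < 0 := by
  obtain ⟨s, t, hs, ht, hst, h⟩ := ev_seg f hz
  rw [h]; nlinarith [mul_neg_of_pos_of_neg hs hp, mul_nonpos_of_nonneg_of_nonpos ht.le hq]

lemma seg_neg_r (f : Fn) {p q z : Pt} (hz : z ∈ openSegment ℝ p q) (hp : f.ev p ≤ 0)
    (hq : f.ev q < 0) : f.ev z < 0 := by
  rw [openSegment_symm] at hz; exact seg_neg_l f hz hq hp

lemma seg_pos_l (f : Fn) {p q z : Pt} (hz : z ∈ openSegment ℝ p q) (hp : 0 < f.ev p)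
    (hq : 0 ≤ f.ev q) : 0 < f.ev z := by
  obtain ⟨s, t, hs, ht, hst, h⟩ := ev_seg f hz
  rw [h]; nlinarith [mul_pos hs hp, mul_nonneg ht.le hq]

lemma seg_pos_r (f : Fn) {p q z : Pt} (hz : z ∈ openSegment ℝ p q) (hp : 0 ≤ f.ev p)
    (hq : 0 < f.ev q) : 0 < f.ev z := by
  rw [openSegment_symm] at hz; exact seg_pos_l f hz hq hp

lemma seg_nonpos (f : Fn) {p q z : Pt} (hz : z ∈ openSegment ℝ p q) (hp : f.ev p ≤ 0)
    (hq : f.ev q ≤ 0) : f.ev z ≤ 0 := by
  obtain ⟨s, t, hs, ht, hst, h⟩ := ev_seg f hz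
  rw [h]; nlinarith [mul_nonpos_of_nonneg_of_nonpos hs.le hp, mul_nonpos_of_nonneg_of_nonpos ht.le hq]

lemma seg_nonneg (f : Fn) {p q z : Pt} (hz : z ∈ openSegment ℝ p q) (hp : 0 ≤ f.ev p)
    (hq : 0 ≤ f.ev q) : 0 ≤ f.ev z := by
  obtain ⟨s, t, hs, ht, hst, h⟩ := ev_seg f hz
  rw [h]; nlinarith [mul_nonneg hs.le hp, mul_nonneg ht.le hq]

lemma seg_zero (f : Fn) {p q z : Pt} (hz : z ∈ openSegment ℝ p q) (hp : f.ev p = 0)
    (hq : f.ev q = 0) : f.ev z = 0 := by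
  obtain ⟨s, t, hs, ht, hst, h⟩ := ev_seg f hz
  rw [h, hp, hq]; ring

/-- `C` meets every open segment between a point of `A` and a point of `B`. -/
def Blk (A B C : Finset Pt) : Prop := ∀ a ∈ A, ∀ b ∈ B, ∃ c ∈ C, c ∈ openSegment ℝ a b

/-- All points of `S` are on one line. -/
def Coll (S : Finset Pt) : Prop := ∃ f : Fn, f.NZ ∧ ∀ p ∈ S, f.ev p = 0

/-- No line contains more than `k` points of `A` and more than `k` points of `B`. -/
def HK (k : ℕ) (A B : Finset Pt) : Prop := ∀ f : Fn, f.NZ → ∀ x : ℕ,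
  x ≤ (A.filter (fun p => f.ev p = 0)).card → x ≤ (B.filter (fun p => f.ev p = 0)).card → x ≤ k

lemma HK.mono {k : ℕ} {A B A' B' : Finset Pt} (h : HK k A B) (hA : A' ⊆ A) (hB : B' ⊆ B) :
    HK k A' B' := fun f hf x hx hy => h f hf x
  (hx.trans (Finset.card_le_card (Finset.filter_subset_filter _ hA)))
  (hy.trans (Finset.card_le_card (Finset.filter_subset_filter _ hB)))

lemma HK.coll {k n : ℕ} {A B : Finset Pt} (h : HK k A B) (hA : A.card = n) (hB : B.card = n)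
    (hc : Coll (A ∪ B)) : n ≤ k := by
  obtain ⟨f, hf, hz⟩ := hc
  refine h f hf n ?_ ?_
  · rw [Finset.filter_true_of_mem (fun p hp => hz p (Finset.mem_union_left _ hp)), hA]
  · rw [Finset.filter_true_of_mem (fun p hp => hz p (Finset.mem_union_right _ hp)), hB]

/-- A star from a point off a line to points of the line needs as many blockers as targets. -/
lemma star (C : Finset Pt) (y : Pt) (T : Finset Pt) (w : Fn) (hy : w.ev y ≠ 0)
    (hT : ∀ t ∈ T, w.ev t = 0) (hC : ∀ t ∈ T, ∃ c ∈ C, c ∈ openSegment ℝ y t) :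
    ∃ D : Finset Pt, D ⊆ C ∧ D.card = T.card ∧ ∀ c ∈ D, ∃ t ∈ T, c ∈ openSegment ℝ y t := by
  classical
  choose! g hg using hC
  refine ⟨T.image g, ?_, ?_, ?_⟩
  · intro c hc
    obtain ⟨t, ht, rfl⟩ := Finset.mem_image.mp hc
    exact (hg t ht).1
  · apply Finset.card_image_of_injOn
    intro t ht t' ht' hgg
    have ht1 : t ∈ T := ht
    have ht2 : t' ∈ T := ht'
    have h1 := (hg t ht1).2
    have h2 := (hg t' ht2).2
    rw [← hgg] at h2
    obtain ⟨s, r, hs, hr, hsr, h1e⟩ := h1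
    obtain ⟨s', r', hs', hr', hsr', h2e⟩ := h2
    have e1 : w.ev (g t) = s * w.ev y := by
      rw [← h1e]
      have h : s = 1 - r := by linarith
      have h3 := hT t ht1
      simp only [Fn.ev, Prod.fst_add, Prod.snd_add, Prod.smul_fst, Prod.smul_snd,
        smul_eq_mul] at h3 ⊢
      subst h
      linear_combination r * h3
    have e2 : w.ev (g t) = s' * w.ev y := by
      rw [← h2e]
      have h : s' = 1 - r' := by linarith
      have h3 := hT t' ht2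
      simp only [Fn.ev, Prod.fst_add, Prod.snd_add, Prod.smul_fst, Prod.smul_snd,
        smul_eq_mul] at h3 ⊢
      subst h
      linear_combination r' * h3
    have hss : s = s' := mul_right_cancel₀ hy (e1.symm.trans e2)
    have hrr : r = r' := by linarith
    subst hss hrr
    rw [← h2e] at h1e
    have h4 : r • t = r • t' := add_left_cancel h1e
    exact smul_right_injective _ hr.ne' h4
  · intro c hc
    obtain ⟨t, ht, rfl⟩ := Finset.mem_image.mp hc
    exact ⟨t, ht, (hg t ht).2⟩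

/-- Rotating a separating line about a line. -/
lemma rot (P1 P2 : Finset Pt) (ψ w : Fn) (h1 : ∀ p ∈ P1, ψ.ev p < 0 ∧ w.ev p = 0)
    (h2 : ∀ p ∈ P2, 0 < ψ.ev p) (hex : ∃ p ∈ P2, 0 < w.ev p) :
    ∃ y ∈ P2, 0 < w.ev y ∧ ∃ φ : Fn, φ.ev y = 0 ∧ (∀ p ∈ P2, 0 ≤ φ.ev p) ∧
      (∀ p ∈ P1, φ.ev p < 0) := by
  classical
  obtain ⟨p0, hp0, hw0⟩ := hex
  have hne : (P2.filter (fun p => 0 < w.ev p)).Nonempty :=
    ⟨p0, Finset.mem_filter.mpr ⟨hp0, hw0⟩⟩
  obtain ⟨y, hy, hmin⟩ := Finset.exists_min_image _ (fun p => ψ.ev p / w.ev p) hne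
  obtain ⟨hyP, hyw⟩ := Finset.mem_filter.mp hy
  have ht : 0 < ψ.ev y / w.ev y := div_pos (h2 y hyP) hyw
  refine ⟨y, hyP, hyw, ψ.comb w (-(ψ.ev y / w.ev y)), ?_, ?_, ?_⟩
  · rw [ev_comb]; field_simp; ring
  · intro p hp
    rw [ev_comb]
    rcases le_or_gt (w.ev p) 0 with hw | hw
    · have := h2 p hp
      nlinarith [mul_nonneg ht.le (neg_nonneg.mpr hw)]
    · have h3 := hmin p (Finset.mem_filter.mpr ⟨hp, hw⟩)
      have h4 : ψ.ev y / w.ev y * w.ev p ≤ ψ.ev p := by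
        rw [le_div_iff₀ hw] at h3; exact h3
      linarith
  · intro p hp
    rw [ev_comb, (h1 p hp).2]
    have := (h1 p hp).1
    linarith

end Pool.Vis
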