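import Pool.Agent.Vis.Basic

/-!
# Counting blockers for two separated parts
-/

namespace Pool.Vis

open Finset

/-- Two separated parts and one extra blocker between them. -/
lemma glue (A1 B1 A2 B2 C : Finset Pt) (ψ w : Fn)
    (hψ1 : ∀ p ∈ A1 ∪ B1, ψ.ev p < 0) (hψ2 : ∀ p ∈ A2 ∪ B2, 0 < ψ.ev p)
    (hw1 : ∀ p ∈ A1 ∪ B1, w.ev p ≤ 0)
    (a : Pt) (ha : a ∈ A1) (ha0 : w.ev a = 0) (b : Pt) (hb : b ∈ B1) (hb0 : w.ev b = 0)
    (hex : ∃ p ∈ A2 ∪ B2, 0 < w.ev p)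
    (hB : Blk (A1 ∪ A2) (B1 ∪ B2) C) :
    ∃ C1 C2 : Finset Pt, C1 ⊆ C ∧ C2 ⊆ C ∧ Blk A1 B1 C1 ∧ Blk A2 B2 C2 ∧
      C1.card + C2.card + 1 ≤ C.card := by
  classical
  obtain ⟨y, hyP, hyw, φ, hφy, hφ2, hφ1⟩ := rot {a, b} (A2 ∪ B2) ψ w (by
    intro p hp
    rcases mem_insert.mp hp with rfl | hp
    · exact ⟨hψ1 _ (mem_union_left _ ha), ha0⟩
    · rw [mem_singleton.mp hp]
      exact ⟨hψ1 _ (mem_union_right _ hb), hb0⟩) hψ2 hex
  have hφa : φ.ev a < 0 := hφ1 a (by simp)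
  have hφb : φ.ev b < 0 := hφ1 b (by simp)
  have hc0 : ∃ c0 ∈ C, φ.ev c0 < 0 ∧ 0 < w.ev c0 := by
    rcases mem_union.mp hyP with hy | hy
    · obtain ⟨c0, hc0, hs⟩ := hB y (mem_union_right _ hy) b (mem_union_left _ hb)
      exact ⟨c0, hc0, seg_neg_r φ hs hφy.le hφb, seg_pos_l w hs hyw hb0.ge⟩
    · obtain ⟨c0, hc0, hs⟩ := hB a (mem_union_left _ ha) y (mem_union_right _ hy)
      exact ⟨c0, hc0, seg_neg_l φ hs hφa hφy.le, seg_pos_r w hs ha0.ge hyw⟩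
  obtain ⟨c0, hc0, hφc, hwc⟩ := hc0
  refine ⟨C.filter (fun c => ψ.ev c < 0 ∧ w.ev c ≤ 0), C.filter (fun c => 0 < ψ.ev c ∧ 0 ≤ φ.ev c),
    filter_subset _ _, filter_subset _ _, ?_, ?_, ?_⟩
  · intro p hp q hq
    obtain ⟨c, hc, hs⟩ := hB p (mem_union_left _ hp) q (mem_union_left _ hq)
    refine ⟨c, mem_filter.mpr ⟨hc, ?_, ?_⟩, hs⟩
    · exact seg_neg_l ψ hs (hψ1 _ (mem_union_left _ hp)) (hψ1 _ (mem_union_right _ hq)).le
    · exact seg_nonpos w hs (hw1 _ (mem_union_left _ hp)) (hw1 _ (mem_union_right _ hq))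
  · intro p hp q hq
    obtain ⟨c, hc, hs⟩ := hB p (mem_union_right _ hp) q (mem_union_right _ hq)
    refine ⟨c, mem_filter.mpr ⟨hc, ?_, ?_⟩, hs⟩
    · exact seg_pos_l ψ hs (hψ2 _ (mem_union_left _ hp)) (hψ2 _ (mem_union_right _ hq)).le
    · exact seg_nonneg φ hs (hφ2 _ (mem_union_left _ hp)) (hφ2 _ (mem_union_right _ hq))
  · have h1 : Disjoint (C.filter (fun c => ψ.ev c < 0 ∧ w.ev c ≤ 0))
        (C.filter (fun c => 0 < ψ.ev c ∧ 0 ≤ φ.ev c)) := by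
      rw [disjoint_left]
      intro c hc hc'
      have h2 := (mem_filter.mp hc).2.1
      have h3 := (mem_filter.mp hc').2.1
      exact absurd h2 (not_lt.mpr h3.le)
    have h2 : c0 ∉ (C.filter (fun c => ψ.ev c < 0 ∧ w.ev c ≤ 0)) ∪
        (C.filter (fun c => 0 < ψ.ev c ∧ 0 ≤ φ.ev c)) := by
      intro h
      rcases mem_union.mp h with h | h
      · exact absurd (mem_filter.mp h).2.2 (not_le.mpr hwc)
      · exact absurd (mem_filter.mp h).2.2 (not_le.mpr hφc)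
    rw [← card_union_of_disjoint h1, ← card_insert_of_notMem h2]
    apply card_le_card
    intro c hc
    rcases mem_insert.mp hc with rfl | hc
    · exact hc0
    · rcases mem_union.mp hc with hc | hc
      · exact (mem_filter.mp hc).1
      · exact (mem_filter.mp hc).1

/-- Peeling off a collinear balanced part, one sign. -/
lemma peel_pos (A1 B1 A2 B2 C : Finset Pt) (ψ w : Fn) (n1 : ℕ) (hn : 1 ≤ n1)
    (hA : A1.card = n1) (hBc : B1.card = n1)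
    (h1 : ∀ p ∈ A1 ∪ B1, ψ.ev p < 0 ∧ w.ev p = 0) (h2 : ∀ p ∈ A2 ∪ B2, 0 < ψ.ev p)
    (hex : ∃ p ∈ A2 ∪ B2, 0 < w.ev p)
    (hB : Blk (A1 ∪ A2) (B1 ∪ B2) C) :
    ∃ C2 : Finset Pt, C2 ⊆ C ∧ Blk A2 B2 C2 ∧ C2.card + n1 + 1 ≤ C.card := by
  classical
  obtain ⟨y, hyP, hyw, φ, hφy, hφ2, hφ1⟩ := rot (A1 ∪ B1) (A2 ∪ B2) ψ w h1 h2 hex
  -- the star
  have hstar : ∃ D : Finset Pt, D ⊆ C ∧ D.card = n1 ∧ ∀ c ∈ D, φ.ev c < 0 ∧ 0 < w.ev c := by
    rcases mem_union.mp hyP with hy | hy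
    · obtain ⟨D, hD, hDc, hDs⟩ := star C y B1 w hyw.ne' (fun t ht => (h1 t (mem_union_right _ ht)).2)
        (fun t ht => hB y (mem_union_right _ hy) t (mem_union_left _ ht))
      refine ⟨D, hD, hDc.trans hBc, fun c hc => ?_⟩
      obtain ⟨t, ht, hs⟩ := hDs c hc
      exact ⟨seg_neg_r φ hs hφy.le (hφ1 t (mem_union_right _ ht)),
        seg_pos_l w hs hyw (h1 t (mem_union_right _ ht)).2.ge⟩
    · obtain ⟨D, hD, hDc, hDs⟩ := star C y A1 w hyw.ne' (fun t ht => (h1 t (mem_union_left _ ht)).2)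
        (fun t ht => by
          obtain ⟨c, hc, hs⟩ := hB t (mem_union_left _ ht) y (mem_union_right _ hy)
          exact ⟨c, hc, by rwa [openSegment_symm]⟩)
      refine ⟨D, hD, hDc.trans hA, fun c hc => ?_⟩
      obtain ⟨t, ht, hs⟩ := hDs c hc
      exact ⟨seg_neg_r φ hs hφy.le (hφ1 t (mem_union_left _ ht)),
        seg_pos_l w hs hyw (h1 t (mem_union_left _ ht)).2.ge⟩
  obtain ⟨D, hDC, hDcard, hD⟩ := hstar
  -- the extra blocker on the line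
  have hA1 : A1.Nonempty := card_pos.mp (by omega)
  have hB1 : B1.Nonempty := card_pos.mp (by omega)
  obtain ⟨a, ha⟩ := hA1
  obtain ⟨b, hb⟩ := hB1
  obtain ⟨c0, hc0, hs0⟩ := hB a (mem_union_left _ ha) b (mem_union_left _ hb)
  have hw0 : w.ev c0 = 0 := seg_zero w hs0 (h1 a (mem_union_left _ ha)).2
    (h1 b (mem_union_right _ hb)).2
  have hφ0 : φ.ev c0 < 0 := seg_neg_l φ hs0 (hφ1 a (mem_union_left _ ha))
    (hφ1 b (mem_union_right _ hb)).le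
  refine ⟨C.filter (fun c => 0 ≤ φ.ev c), filter_subset _ _, ?_, ?_⟩
  · intro p hp q hq
    obtain ⟨c, hc, hs⟩ := hB p (mem_union_right _ hp) q (mem_union_right _ hq)
    exact ⟨c, mem_filter.mpr ⟨hc, seg_nonneg φ hs (hφ2 _ (mem_union_left _ hp))
      (hφ2 _ (mem_union_right _ hq))⟩, hs⟩
  · have e1 : Disjoint (C.filter (fun c => 0 ≤ φ.ev c)) D := by
      rw [disjoint_left]
      intro c hc hc'
      exact absurd (mem_filter.mp hc).2 (not_le.mpr (hD c hc').1)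
    have e2 : c0 ∉ (C.filter (fun c => 0 ≤ φ.ev c)) ∪ D := by
      intro h
      rcases mem_union.mp h with h | h
      · exact absurd (mem_filter.mp h).2 (not_le.mpr hφ0)
      · exact absurd (hD c0 h).2 (by rw [hw0]; exact lt_irrefl 0)
    rw [← hDcard, ← card_union_of_disjoint e1, ← card_insert_of_notMem e2]
    apply card_le_card
    intro c hc
    rcases mem_insert.mp hc with rfl | hc
    · exact hc0
    · rcases mem_union.mp hc with hc | hc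
      · exact (mem_filter.mp hc).1
      · exact hDC hc

/-- Peeling off a collinear balanced part. -/
lemma peel (A1 B1 A2 B2 C : Finset Pt) (ψ w : Fn) (n1 : ℕ) (hn : 1 ≤ n1)
    (hA : A1.card = n1) (hBc : B1.card = n1)
    (h1 : ∀ p ∈ A1 ∪ B1, ψ.ev p < 0 ∧ w.ev p = 0) (h2 : ∀ p ∈ A2 ∪ B2, 0 < ψ.ev p)
    (hex : ∃ p ∈ A2 ∪ B2, w.ev p ≠ 0)
    (hB : Blk (A1 ∪ A2) (B1 ∪ B2) C) :
    ∃ C2 : Finset Pt, C2 ⊆ C ∧ Blk A2 B2 C2 ∧ C2.card + n1 + 1 ≤ C.card := by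
  obtain ⟨p, hp, hp0⟩ := hex
  rcases lt_or_gt_of_ne hp0 with h | h
  · exact peel_pos A1 B1 A2 B2 C ψ w.opp n1 hn hA hBc
      (fun q hq => ⟨(h1 q hq).1, by rw [ev_opp, (h1 q hq).2, neg_zero]⟩) h2
      ⟨p, hp, by rw [ev_opp]; linarith⟩ hB
  · exact peel_pos A1 B1 A2 B2 C ψ w n1 hn hA hBc h1 h2 ⟨p, hp, h⟩ hB

end Pool.Vis
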