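import Pool.Agent.Vis.Main

/-!
# Red-blue pairs coming from a cut of a visibility graph
-/

namespace Pool.Vis

open Finset

lemma sub_seg {a b z : Pt} (hz : z ∈ openSegment ℝ a b) :
    openSegment ℝ z b ⊆ openSegment ℝ a b := by
  intro w hw
  obtain ⟨s, t, hs, ht, hst, rfl⟩ := hz
  obtain ⟨s', t', hs', ht', hst', rfl⟩ := hw
  refine ⟨s' * s, s' * t + t', mul_pos hs' hs, add_pos (mul_pos hs' ht) ht', ?_, ?_⟩
  · linear_combination s' * hst + hst'
  · rw [smul_add, smul_smul, smul_smul, add_smul, add_assoc]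

/-- If no pair of `A × B` is visible then `C` blocks all the pairs. -/
lemma blk_of_cut (P A B C : Finset Pt) (hP : ∀ z ∈ P, z ∈ A ∨ z ∈ B ∨ z ∈ C)
    (hd : Disjoint A B) (hno : ∀ a ∈ A, ∀ b ∈ B, ∃ z ∈ P, z ∈ openSegment ℝ a b) :
    Blk A B C := by
  classical
  have key : ∀ m : ℕ, ∀ a ∈ A, ∀ b ∈ B, (P.filter (fun z => z ∈ openSegment ℝ a b)).card = m →
      ∃ c ∈ C, c ∈ openSegment ℝ a b := by
    intro m
    induction m using Nat.strong_induction_on with
    | _ m ih =>
      intro a ha b hb hm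
      obtain ⟨z, hz, hzs⟩ := hno a ha b hb
      have hab : a ≠ b := fun h => (disjoint_left.mp hd ha) (h ▸ hb)
      rcases hP z hz with h | h | h
      · have hzb : z ≠ b := fun h' => (disjoint_left.mp hd h) (h' ▸ hb)
        have hsub := sub_seg hzs
        have hlt : (P.filter (fun w => w ∈ openSegment ℝ z b)).card < m := by
          rw [← hm]
          apply card_lt_card
          rw [ssubset_iff_of_subset (fun w hw => mem_filter.mpr
            ⟨(mem_filter.mp hw).1, hsub (mem_filter.mp hw).2⟩)]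
          refine ⟨z, mem_filter.mpr ⟨hz, hzs⟩, fun hw => ?_⟩
          exact hzb (left_mem_openSegment_iff.mp (mem_filter.mp hw).2)
        obtain ⟨c, hc, hcs⟩ := ih _ hlt z h b hb rfl
        exact ⟨c, hc, hsub hcs⟩
      · have hza : z ≠ a := fun h' => (disjoint_left.mp hd ha) (h' ▸ h)
        have hzs' : z ∈ openSegment ℝ b a := by rw [openSegment_symm]; exact hzs
        have hsub : openSegment ℝ a z ⊆ openSegment ℝ a b := by
          rw [openSegment_symm ℝ a z, openSegment_symm ℝ a b]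
          exact sub_seg hzs'
        have hlt : (P.filter (fun w => w ∈ openSegment ℝ a z)).card < m := by
          rw [← hm]
          apply card_lt_card
          rw [ssubset_iff_of_subset (fun w hw => mem_filter.mpr
            ⟨(mem_filter.mp hw).1, hsub (mem_filter.mp hw).2⟩)]
          refine ⟨z, mem_filter.mpr ⟨hz, hzs⟩, fun hw => ?_⟩
          exact hza (right_mem_openSegment_iff.mp (mem_filter.mp hw).2).symm
        obtain ⟨c, hc, hcs⟩ := ih _ hlt a ha z h rfl
        exact ⟨c, hc, hsub hcs⟩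
      · exact ⟨z, h, hzs⟩
  intro a ha b hb
  exact key _ a ha b hb rfl

lemma seg_of_between (f g : Fn) (hdet : f.a * g.b - f.b * g.a ≠ 0) (p x q : Pt)
    (hp : f.ev p = 0) (hx : f.ev x = 0) (hq : f.ev q = 0) (h1 : g.ev p < g.ev x)
    (h2 : g.ev x < g.ev q) : x ∈ openSegment ℝ p q := by
  have hpos : 0 < g.ev q - g.ev p := by linarith
  set t := (g.ev x - g.ev p) / (g.ev q - g.ev p) with ht
  have ht0 : 0 < t := div_pos (by linarith) hpos
  have ht1 : t < 1 := by rw [ht, div_lt_one hpos]; linarith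
  refine ⟨1 - t, t, by linarith, ht0, by ring, ?_⟩
  have htm : t * (g.ev q - g.ev p) = g.ev x - g.ev p := by
    rw [ht]; field_simp
  apply det_inj f g hdet
  · rw [hx]
    simp only [Fn.ev, Prod.fst_add, Prod.snd_add, Prod.smul_fst, Prod.smul_snd,
      smul_eq_mul] at hp hq ⊢
    linear_combination (1 - t) * hp + t * hq
  · have h3 : g.ev ((1 - t) • p + t • q) = (1 - t) * g.ev p + t * g.ev q := by
      simp only [Fn.ev, Prod.fst_add, Prod.snd_add, Prod.smul_fst, Prod.smul_snd, smul_eq_mul]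
      ring
    rw [h3]; linarith

/-- Points on a ray from `a`: at most one of them is visible from `a`. -/
lemma ray_deg (P X : Finset Pt) (f g : Fn) (hdet : f.a * g.b - f.b * g.a ≠ 0) (a : Pt)
    (hfa : f.ev a = 0) (hX : ∀ x ∈ X, x ∈ P ∧ f.ev x = 0 ∧ g.ev a < g.ev x) (N : Finset Pt)
    (hN : ∀ y ∈ N, ∀ z ∈ P, z ∉ openSegment ℝ a y) : (X ∩ N).card ≤ 1 := by
  classical
  rw [card_le_one]
  intro x hx y hy
  obtain ⟨hxX, hxN⟩ := mem_inter.mp hx
  obtain ⟨hyX, hyN⟩ := mem_inter.mp hy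
  obtain ⟨hxP, hfx, hgx⟩ := hX x hxX
  obtain ⟨hyP, hfy, hgy⟩ := hX y hyX
  rcases lt_trichotomy (g.ev x) (g.ev y) with h | h | h
  · exact absurd (seg_of_between f g hdet a x y hfa hfx hfy hgx h) (hN y hyN x hxP)
  · exact det_inj f g hdet x y (hfx.trans hfy.symm) h
  · exact absurd (seg_of_between f g hdet a y x hfa hfy hfx hgy h) (hN x hxN y hyP)

/-- The degree bound given by a line with many points of both colours. -/
lemma deg_line (P A B C : Finset Pt) (hPe : P = (A ∪ B) ∪ C) (hd : Disjoint A B)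
    (hAC : Disjoint A C) (hblk : Blk A B C) (f : Fn) (hf : f.NZ) (k : ℕ) (hk : 1 ≤ k)
    (hkA : k ≤ (A.filter (fun p => f.ev p = 0)).card)
    (hkB : k ≤ (B.filter (fun p => f.ev p = 0)).card) :
    ∃ a ∈ A, ∀ N : Finset Pt, N ⊆ P → a ∉ N → (∀ y ∈ N, ∀ z ∈ P, z ∉ openSegment ℝ a y) →
      N.card + k ≤ A.card + C.card := by
  classical
  -- the functional `g` along the line
  have main : ∀ g : Fn, f.a * g.b - f.b * g.a ≠ 0 →
      (∃ a0 ∈ A, f.ev a0 = 0 ∧ (∀ p ∈ A, f.ev p = 0 → g.ev a0 ≤ g.ev p) ∧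
        ∃ b ∈ B, f.ev b = 0 ∧ g.ev a0 < g.ev b) →
      ∃ a ∈ A, ∀ N : Finset Pt, N ⊆ P → a ∉ N → (∀ y ∈ N, ∀ z ∈ P, z ∉ openSegment ℝ a y) →
        N.card + k ≤ A.card + C.card := by
    rintro g hdet ⟨a0, ha0, hfa0, hmin, b, hb, hfb, hgb⟩
    obtain ⟨c, hc, hcs⟩ := hblk a0 ha0 b hb
    refine ⟨a0, ha0, fun N hNP haN hN => ?_⟩
    set X := insert c ((A.filter (fun p => f.ev p = 0)).erase a0) with hX
    have hcA : c ∉ A := fun h => (disjoint_left.mp hAC h) hc
    have hcX : c ∉ (A.filter (fun p => f.ev p = 0)).erase a0 := fun h =>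
      hcA (mem_filter.mp (mem_erase.mp h).2).1
    have hXcard : k ≤ X.card := by
      rw [hX, card_insert_of_notMem hcX, card_erase_of_mem (mem_filter.mpr ⟨ha0, hfa0⟩)]
      omega
    have hcg : g.ev a0 < g.ev c := by
      obtain ⟨s, t, hs, ht, hst, h⟩ := ev_seg g hcs
      rw [h]
      have : s = 1 - t := by linarith
      subst this
      nlinarith
    have hXP : ∀ x ∈ X, x ∈ P ∧ f.ev x = 0 ∧ g.ev a0 < g.ev x := by
      intro x hx
      rw [hX, mem_insert] at hx
      rcases hx with rfl | hx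
      · exact ⟨by rw [hPe]; exact mem_union_right _ hc, seg_zero f hcs hfa0 hfb, hcg⟩
      · obtain ⟨hxa, hx⟩ := mem_erase.mp hx
        obtain ⟨hxA, hfx⟩ := mem_filter.mp hx
        refine ⟨by rw [hPe]; exact mem_union_left _ (mem_union_left _ hxA), hfx, ?_⟩
        refine lt_of_le_of_ne (hmin x hxA hfx) (fun h => hxa ?_)
        exact det_inj f g hdet x a0 (hfx.trans hfa0.symm) h.symm
    have h1 := ray_deg P X f g hdet a0 hfa0 hXP N hN
    have hXs : X ⊆ (A.erase a0) ∪ C := by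
      intro x hx
      rw [hX, mem_insert] at hx
      rcases hx with rfl | hx
      · exact mem_union_right _ hc
      · obtain ⟨hxa, hx⟩ := mem_erase.mp hx
        exact mem_union_left _ (mem_erase.mpr ⟨hxa, (mem_filter.mp hx).1⟩)
    have hNs : N ⊆ (A.erase a0) ∪ C := by
      intro y hy
      have hyP := hNP hy
      rw [hPe, mem_union, mem_union] at hyP
      have hya : y ≠ a0 := fun h => haN (h ▸ hy)
      rcases hyP with (h | h) | h
      · exact mem_union_left _ (mem_erase.mpr ⟨hya, h⟩)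
      · obtain ⟨c', hc', hcs'⟩ := hblk a0 ha0 y h
        exact absurd hcs' (hN y hy c' (by rw [hPe]; exact mem_union_right _ hc'))
      · exact mem_union_right _ h
    have hcardU : ((A.erase a0) ∪ C).card ≤ A.card - 1 + C.card := by
      refine (card_union_le _ _).trans ?_
      rw [card_erase_of_mem ha0]
    have hunion : (X ∪ N).card ≤ ((A.erase a0) ∪ C).card :=
      card_le_card (union_subset hXs hNs)
    have hui := card_union_add_card_inter X N
    have hA1 : 1 ≤ A.card := card_pos.mpr ⟨a0, ha0⟩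
    omega
  set g : Fn := ⟨-f.b, f.a, 0⟩ with hg
  have hdet : f.a * g.b - f.b * g.a ≠ 0 := by
    simp only [hg]
    rcases hf with h | h
    · nlinarith [sq_nonneg f.b, mul_self_pos.mpr h]
    · nlinarith [sq_nonneg f.a, mul_self_pos.mpr h]
  have hAn : (A.filter (fun p => f.ev p = 0)).Nonempty := card_pos.mp (by omega)
  have hBn : (B.filter (fun p => f.ev p = 0)).Nonempty := card_pos.mp (by omega)
  obtain ⟨b, hb⟩ := hBn
  obtain ⟨hbB, hfb⟩ := mem_filter.mp hb
  obtain ⟨a0, ha0, hmin⟩ := exists_min_image _ (fun p => g.ev p) hAn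
  obtain ⟨ha0A, hfa0⟩ := mem_filter.mp ha0
  have hab : a0 ≠ b := fun h => (disjoint_left.mp hd ha0A) (h ▸ hbB)
  rcases lt_trichotomy (g.ev a0) (g.ev b) with h | h | h
  · exact main g hdet ⟨a0, ha0A, hfa0, fun p hp hfp => hmin p (mem_filter.mpr ⟨hp, hfp⟩), b, hbB,
      hfb, h⟩
  · exact absurd (det_inj f g hdet a0 b (hfa0.trans hfb.symm) h) hab
  · obtain ⟨a1, ha1, hmax⟩ := exists_max_image _ (fun p => g.ev p) hAn
    obtain ⟨ha1A, hfa1⟩ := mem_filter.mp ha1
    have hdet' : f.a * g.opp.b - f.b * g.opp.a ≠ 0 := by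
      simp only [Fn.opp]
      intro h0; apply hdet; linarith
    refine main g.opp hdet' ⟨a1, ha1A, hfa1, fun p hp hfp => ?_, b, hbB, hfb, ?_⟩
    · rw [ev_opp, ev_opp]
      linarith [hmax p (mem_filter.mpr ⟨hp, hfp⟩)]
    · rw [ev_opp, ev_opp]
      linarith [hmax a0 ha0]

lemma exists_k (A B : Finset Pt) : ∃ k, HK k A B ∧ (k = 0 ∨ ∃ f : Fn, f.NZ ∧
    k ≤ (A.filter (fun p => f.ev p = 0)).card ∧ k ≤ (B.filter (fun p => f.ev p = 0)).card) := by
  classical
  have hex : ∃ k, HK k A B := ⟨A.card, fun f _ x hx _ => hx.trans (card_filter_le _ _)⟩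
  obtain ⟨k, hk, hmin⟩ : ∃ k, HK k A B ∧ ∀ m < k, ¬ HK m A B :=
    ⟨Nat.find hex, Nat.find_spec hex, fun m hm => Nat.find_min hex hm⟩
  refine ⟨k, hk, ?_⟩
  rcases Nat.eq_zero_or_pos k with h | h
  · exact Or.inl h
  right
  have hnot := hmin (k - 1) (by omega)
  unfold HK at hnot
  push Not at hnot
  obtain ⟨f, hf, x, hx1, hx2, hx3⟩ := hnot
  exact ⟨f, hf, by omega, by omega⟩

lemma line_through (a b : Pt) (hab : a ≠ b) : ∃ f : Fn, f.NZ ∧ f.ev a = 0 ∧ f.ev b = 0 := by
  refine ⟨⟨b.2 - a.2, a.1 - b.1, a.2 * (b.1 - a.1) - a.1 * (b.2 - a.2)⟩, ?_, ?_, ?_⟩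
  · by_contra hcon
    unfold Fn.NZ at hcon
    push Not at hcon
    obtain ⟨h1, h2⟩ := hcon
    exact hab (Prod.ext (by linarith) (by linarith))
  · simp only [Fn.ev]; ring
  · simp only [Fn.ev]; ring

/-- The numerical consequence for a cut with parts `A`, `B` and cut set `C`. -/
theorem cut_bound (P A B C : Finset Pt) (hPe : P = (A ∪ B) ∪ C) (hd : Disjoint A B)
    (hAC : Disjoint A C) (hBC : Disjoint B C) (hA : A.Nonempty) (hle : A.card ≤ B.card)
    (hno : ∀ a ∈ A, ∀ b ∈ B, ∃ z ∈ P, z ∈ openSegment ℝ a b) (d : ℕ)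
    (hdeg : ∀ a ∈ A, ∃ N : Finset Pt, N ⊆ P ∧ a ∉ N ∧
      (∀ y ∈ N, ∀ z ∈ P, z ∉ openSegment ℝ a y) ∧ d ≤ N.card) :
    d ≤ C.card ∨ ∃ k : ℕ, 1 ≤ k ∧ (∃ S ⊆ P, S.card = 2 * k + 1 ∧ Coll S) ∧
      (k + 1) * d + k ^ 2 ≤ (2 * k + 1) * C.card := by
  classical
  have hblk : Blk A B C := by
    refine blk_of_cut P A B C (fun z hz => ?_) hd hno
    rw [hPe, mem_union, mem_union, or_assoc] at hz
    exact hz
  have hBn : B.Nonempty := card_pos.mp (lt_of_lt_of_le (card_pos.mpr hA) hle)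
  obtain ⟨a1, ha1⟩ := hA
  obtain ⟨b1, hb1⟩ := hBn
  have hab1 : a1 ≠ b1 := fun h => (disjoint_left.mp hd ha1) (h ▸ hb1)
  obtain ⟨k, hHK, hk⟩ := exists_k A B
  have hk1 : 1 ≤ k := by
    obtain ⟨f, hf, hfa, hfb⟩ := line_through a1 b1 hab1
    exact hHK f hf 1 (card_pos.mpr ⟨a1, mem_filter.mpr ⟨ha1, hfa⟩⟩)
      (card_pos.mpr ⟨b1, mem_filter.mpr ⟨hb1, hfb⟩⟩)
  obtain ⟨f, hf, hkA, hkB⟩ := hk.resolve_left (by omega)
  obtain ⟨a, ha, hN⟩ := deg_line P A B C hPe hd hAC hblk f hf k hk1 hkA hkB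
  obtain ⟨N, hNP, haN, hNs, hdN⟩ := hdeg a ha
  have hdk : d + k ≤ A.card + C.card := by
    have := hN N hNP haN hNs
    omega
  by_cases hnk : A.card ≤ k
  · left; omega
  right
  -- the line with `2 k + 1` points
  refine ⟨k, hk1, ?_, ?_⟩
  · obtain ⟨a2, ha2⟩ : (A.filter (fun p => f.ev p = 0)).Nonempty := card_pos.mp (by omega)
    obtain ⟨b2, hb2⟩ : (B.filter (fun p => f.ev p = 0)).Nonempty := card_pos.mp (by omega)
    obtain ⟨ha2A, hfa2⟩ := mem_filter.mp ha2
    obtain ⟨hb2B, hfb2⟩ := mem_filter.mp hb2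
    obtain ⟨c, hc, hcs⟩ := hblk a2 ha2A b2 hb2B
    have hsub : insert c ((A.filter (fun p => f.ev p = 0)) ∪ (B.filter (fun p => f.ev p = 0))) ⊆ P := by
      intro x hx
      rw [mem_insert, mem_union, mem_filter, mem_filter] at hx
      rw [hPe, mem_union, mem_union]
      rcases hx with rfl | h | h
      · exact Or.inr hc
      · exact Or.inl (Or.inl h.1)
      · exact Or.inl (Or.inr h.1)
    have hcn : c ∉ (A.filter (fun p => f.ev p = 0)) ∪ (B.filter (fun p => f.ev p = 0)) := by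
      intro h
      rw [mem_union, mem_filter, mem_filter] at h
      rcases h with h | h
      · exact (disjoint_left.mp hAC h.1) hc
      · exact (disjoint_left.mp hBC h.1) hc
    have hcard : 2 * k + 1 ≤ (insert c ((A.filter (fun p => f.ev p = 0)) ∪
        (B.filter (fun p => f.ev p = 0)))).card := by
      rw [card_insert_of_notMem hcn, card_union_of_disjoint (disjoint_filter_filter hd)]
      omega
    obtain ⟨S, hS, hScard⟩ := exists_subset_card_eq hcard
    refine ⟨S, hS.trans hsub, hScard, f, hf, fun p hp => ?_⟩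
    have := hS hp
    rw [mem_insert, mem_union, mem_filter, mem_filter] at this
    rcases this with rfl | h | h
    · exact seg_zero f hcs hfa2 hfb2
    · exact h.2
    · exact h.2
  · -- a balanced subfamily
    have hbal : ∃ B' ⊆ B, B'.card = A.card ∧ ¬ Coll (A ∪ B') := by
      by_cases hAc : Coll A
      · obtain ⟨u, hu, huA⟩ := hAc
        have hb : ∃ b ∈ B, u.ev b ≠ 0 := by
          by_contra hcon
          push Not at hcon
          apply hnk
          refine hHK u hu A.card ?_ ?_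
          · rw [filter_true_of_mem huA]
          · rw [filter_true_of_mem hcon]; exact hle
        obtain ⟨b, hb, hub⟩ := hb
        obtain ⟨B', hB1, hB2, hB3⟩ := exists_subsuperset_card_eq (singleton_subset_iff.mpr hb)
          (by rw [card_singleton]; exact card_pos.mpr ⟨a1, ha1⟩) hle
        refine ⟨B', hB2, hB3, ?_⟩
        rintro ⟨v, hv, hvz⟩
        obtain ⟨e1, he1, e2, he2, hne⟩ := one_lt_card.mp (show 1 < A.card by omega)
        exact hub (same_line u v hv e1 e2 b hne (huA e1 he1) (huA e2 he2)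
          (hvz e1 (mem_union_left _ he1)) (hvz e2 (mem_union_left _ he2))
          (hvz b (mem_union_right _ (singleton_subset_iff.mp hB1))))
      · obtain ⟨B', hB1, hB2⟩ := exists_subset_card_eq hle
        refine ⟨B', hB1, hB2, ?_⟩
        rintro ⟨v, hv, hvz⟩
        exact hAc ⟨v, hv, fun p hp => hvz p (mem_union_left _ hp)⟩
    obtain ⟨B', hB's, hB'c, hnc⟩ := hbal
    have hm := main_count k A.card A B' C rfl hB'c (card_pos.mpr ⟨a1, ha1⟩)
      (disjoint_of_subset_right hB's hd) (hHK.mono (subset_refl _) hB's)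
      (fun x hx y hy => hblk x hx y (hB's hy)) hnc
    nlinarith

end Pool.Vis
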