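import Pool.Agent.Vis.Cut

/-!
# Point visibility graphs: minimum degree and vertex connectivity
-/

namespace Pool.Vis

/-- The point visibility graph of a finite set `P` of points of the plane: distinct points `x`, `y`
of `P` are adjacent if and only if the open segment between them contains no point of `P`. -/
def visGraph (P : Finset (ℝ × ℝ)) : SimpleGraph P where
  Adj x y := x ≠ y ∧ ∀ z ∈ P, z ∉ openSegment ℝ (x : ℝ × ℝ) (y : ℝ × ℝ)
  symm := ⟨fun x y h => ⟨h.1.symm, fun z hz => by rw [openSegment_symm]; exact h.2 z hz⟩⟩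
  loopless := ⟨fun x h => h.1 rfl⟩

/-- The minimum degree of a graph. -/
noncomputable def minDeg {V : Type} (G : SimpleGraph V) : ℕ :=
  sInf {d : ℕ | ∃ v : V, (G.neighborSet v).ncard = d}

/-- The vertex connectivity of a graph: the least number of vertices whose removal leaves a
disconnected graph or a single vertex. -/
noncomputable def vertexConn {V : Type} (G : SimpleGraph V) : ℕ :=
  sInf {m : ℕ | ∃ S : Set V, S.ncard = m ∧ (¬ (G.induce Sᶜ).Preconnected ∨ Sᶜ.ncard = 1)}

open Finset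

/-- The points of `P` satisfying a predicate. -/
noncomputable def im {P : Finset Pt} (q : P → Prop) : Finset Pt := by
  classical
  exact (univ.filter q).map (Function.Embedding.subtype (fun x => x ∈ P))

lemma mem_im {P : Finset Pt} (q : P → Prop) (p : Pt) : p ∈ im q ↔ ∃ h : p ∈ P, q ⟨p, h⟩ := by
  classical
  unfold im
  rw [mem_map]
  constructor
  · rintro ⟨x, hx, rfl⟩
    exact ⟨x.2, (mem_filter.mp hx).2⟩
  · rintro ⟨h, hq⟩
    exact ⟨⟨p, h⟩, mem_filter.mpr ⟨mem_univ _, hq⟩, rfl⟩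

lemma card_im {P : Finset Pt} (q : P → Prop) : (im q).card = {x : P | q x}.ncard := by
  classical
  unfold im
  rw [card_map, ← Set.ncard_coe_finset]
  congr 1
  ext x
  simp

lemma coll_collinear (S : Finset Pt) (h : Coll S) : Collinear ℝ (S : Set (ℝ × ℝ)) := by
  obtain ⟨f, hf, hz⟩ := h
  rw [collinear_iff_exists_forall_eq_smul_vadd]
  have hpos : f.a ^ 2 + f.b ^ 2 ≠ 0 := by
    rcases hf with h | h
    · have := sq_nonneg f.b
      have h2 : 0 < f.a ^ 2 := by positivity
      linarith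
    · have := sq_nonneg f.a
      have h2 : 0 < f.b ^ 2 := by positivity
      linarith
  refine ⟨((-f.c * f.a) / (f.a ^ 2 + f.b ^ 2), (-f.c * f.b) / (f.a ^ 2 + f.b ^ 2)),
    (-f.b, f.a), fun p hp => ⟨(f.a * p.2 - f.b * p.1) / (f.a ^ 2 + f.b ^ 2), ?_⟩⟩
  have h0 := hz p (by exact_mod_cast hp)
  simp only [Fn.ev] at h0
  apply Prod.ext
  · simp only [vadd_eq_add, Prod.fst_add, Prod.smul_fst, smul_eq_mul]
    field_simp
    linear_combination f.a * h0
  · simp only [vadd_eq_add, Prod.snd_add, Prod.smul_snd, smul_eq_mul]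
    field_simp
    linear_combination f.b * h0

/-- The bound in terms of the number of points of `P` on a line. -/
theorem graph_bound (P : Finset (ℝ × ℝ)) :
    minDeg (visGraph P) ≤ vertexConn (visGraph P) ∨
    ∃ k : ℕ, 1 ≤ k ∧ (∃ S ⊆ P, S.card = 2 * k + 1 ∧ Collinear ℝ (S : Set (ℝ × ℝ))) ∧
      (k + 1) * minDeg (visGraph P) + k ^ 2 ≤ (2 * k + 1) * vertexConn (visGraph P) := by
  classical
  set G := visGraph P with hG
  rcases P.eq_empty_or_nonempty with hPe | ⟨p0, hp0⟩
  · left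
    have : {d : ℕ | ∃ v : P, (G.neighborSet v).ncard = d} = ∅ := by
      rw [Set.eq_empty_iff_forall_notMem]
      rintro d ⟨v, _⟩
      exact absurd (hPe ▸ v.2 : (v : Pt) ∈ (∅ : Finset Pt)) (notMem_empty _)
    unfold minDeg
    rw [this, Nat.sInf_empty]
    exact Nat.zero_le _
  have hmin : ∀ v : P, minDeg G ≤ (G.neighborSet v).ncard := fun v => Nat.sInf_le ⟨v, rfl⟩
  have hne : {m : ℕ | ∃ S : Set P, S.ncard = m ∧
      (¬ (G.induce Sᶜ).Preconnected ∨ Sᶜ.ncard = 1)}.Nonempty :=
    ⟨_, ({⟨p0, hp0⟩}ᶜ : Set P), rfl, Or.inr (by rw [compl_compl, Set.ncard_singleton])⟩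
  obtain ⟨S, hS, hcase⟩ := Nat.sInf_mem hne
  have hconn : vertexConn G = S.ncard := hS.symm
  rw [hconn]
  rcases hcase with hcase | hcase
  · -- a disconnecting set
    have hex : ∃ u v : (Sᶜ : Set P), ¬ (G.induce Sᶜ).Reachable u v := by
      by_contra hcon
      push Not at hcon
      exact hcase hcon
    obtain ⟨u, v, huv⟩ := hex
    set R : P → Prop := fun x => ∃ h : x ∈ (Sᶜ : Set P), (G.induce Sᶜ).Reachable u ⟨x, h⟩ with hR
    set A := im R with hA
    set B := im (fun x : P => x ∉ S ∧ ¬ R x) with hB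
    set C := im (fun x : P => x ∈ S) with hC
    have hPe : P = (A ∪ B) ∪ C := by
      ext p
      rw [mem_union, mem_union, hA, hB, hC, mem_im, mem_im, mem_im]
      constructor
      · intro h
        by_cases h1 : (⟨p, h⟩ : P) ∈ S
        · exact Or.inr ⟨h, h1⟩
        · by_cases h2 : R ⟨p, h⟩
          · exact Or.inl (Or.inl ⟨h, h2⟩)
          · exact Or.inl (Or.inr ⟨h, h1, h2⟩)
      · rintro ((⟨h, _⟩ | ⟨h, _⟩) | ⟨h, _⟩) <;> exact h
    have hd : Disjoint A B := by
      rw [disjoint_left]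
      intro p h1 h2
      obtain ⟨h, h1⟩ := (mem_im _ p).mp h1
      obtain ⟨h', h2⟩ := (mem_im _ p).mp h2
      exact h2.2 h1
    have hAC : Disjoint A C := by
      rw [disjoint_left]
      intro p h1 h2
      obtain ⟨h, h1⟩ := (mem_im _ p).mp h1
      obtain ⟨h', h2⟩ := (mem_im _ p).mp h2
      exact h1.1 h2
    have hBC : Disjoint B C := by
      rw [disjoint_left]
      intro p h1 h2
      obtain ⟨h, h1⟩ := (mem_im _ p).mp h1
      obtain ⟨h', h2⟩ := (mem_im _ p).mp h2
      exact h1.1 h2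
    have hAn : A.Nonempty := ⟨(u.1 : Pt), (mem_im _ _).mpr ⟨u.1.2, u.2, by
      exact SimpleGraph.Reachable.refl _⟩⟩
    have hBn : B.Nonempty := ⟨(v.1 : Pt), (mem_im _ _).mpr ⟨v.1.2, v.2, by
      rintro ⟨h, h'⟩; exact huv h'⟩⟩
    have hno : ∀ a ∈ A, ∀ b ∈ B, ∃ z ∈ P, z ∈ openSegment ℝ a b := by
      intro a ha b hb
      obtain ⟨haP, haS, har⟩ := (mem_im _ a).mp ha
      obtain ⟨hbP, hbS, hbr⟩ := (mem_im _ b).mp hb
      by_contra hcon
      push Not at hcon
      have hab : a ≠ b := fun h => (disjoint_left.mp hd ha) (h ▸ hb)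
      have hadj : G.Adj ⟨a, haP⟩ ⟨b, hbP⟩ := by
        rw [hG]
        exact ⟨fun h => hab (congrArg Subtype.val h), hcon⟩
      apply hbr
      refine ⟨hbS, har.trans ?_⟩
      apply SimpleGraph.Adj.reachable
      rw [SimpleGraph.comap_adj]
      exact hadj
    have hdeg : ∀ a ∈ P, ∃ N : Finset Pt, N ⊆ P ∧ a ∉ N ∧
        (∀ y ∈ N, ∀ z ∈ P, z ∉ openSegment ℝ a y) ∧ minDeg G ≤ N.card := by
      intro a ha
      refine ⟨im (fun y : P => G.Adj ⟨a, ha⟩ y), ?_, ?_, ?_, ?_⟩
      · intro p hp; exact ((mem_im _ p).mp hp).1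
      · intro hp
        obtain ⟨h, h1⟩ := (mem_im _ a).mp hp
        exact G.loopless.irrefl _ h1
      · intro y hy
        obtain ⟨h, h1⟩ := (mem_im _ y).mp hy
        rw [hG] at h1
        exact h1.2
      · rw [card_im]
        exact hmin ⟨a, ha⟩
    have hCc : C.card = S.ncard := by
      rw [hC, card_im]; rfl
    have hmem : ∀ p ∈ A ∪ B, p ∈ P := fun p hp => by rw [hPe]; exact mem_union_left _ hp
    rw [← hCc]
    have key : minDeg G ≤ C.card ∨ ∃ k : ℕ, 1 ≤ k ∧ (∃ S ⊆ P, S.card = 2 * k + 1 ∧ Coll S) ∧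
        (k + 1) * minDeg G + k ^ 2 ≤ (2 * k + 1) * C.card := by
      rcases le_total A.card B.card with hle | hle
      · exact cut_bound P A B C hPe hd hAC hBC hAn hle hno (minDeg G)
          (fun a ha => hdeg a (hmem a (mem_union_left _ ha)))
      · refine cut_bound P B A C (by rw [union_comm B A]; exact hPe) hd.symm hBC hAC hBn hle
          (fun b hb a ha => ?_) (minDeg G) (fun b hb => hdeg b (hmem b (mem_union_right _ hb)))
        obtain ⟨z, hz, hzs⟩ := hno a ha b hb
        exact ⟨z, hz, by rw [openSegment_symm]; exact hzs⟩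
    rcases key with h | ⟨k, hk, ⟨T, hT, hTc, hTl⟩, h⟩
    · exact Or.inl h
    · exact Or.inr ⟨k, hk, ⟨T, hT, hTc, coll_collinear T hTl⟩, h⟩
  · -- everything but one vertex removed
    left
    have h1 := Set.ncard_add_ncard_compl S
    have h2 := hmin ⟨p0, hp0⟩
    have h3 : (G.neighborSet ⟨p0, hp0⟩).ncard + 1 ≤ Nat.card P := by
      have h4 : G.neighborSet ⟨p0, hp0⟩ ⊆ ({⟨p0, hp0⟩}ᶜ : Set P) := by
        intro y hy
        rw [Set.mem_compl_iff, Set.mem_singleton_iff]
        rintro rfl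
        exact G.loopless.irrefl _ hy
      have h5 := Set.ncard_le_ncard h4 (Set.toFinite _)
      have h6 := Set.ncard_add_ncard_compl ({⟨p0, hp0⟩} : Set P)
      rw [Set.ncard_singleton] at h6
      omega
    omega

end Pool.Vis
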