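import Pool.Agent.Vis.Sep

/-!
# Red-blue sets: number of blockers
-/

namespace Pool.Vis

open Finset

lemma det_inj (X Y : Fn) (hdet : X.a * Y.b - X.b * Y.a ≠ 0) (p q : Pt)
    (h3 : X.ev p = X.ev q) (h4 : Y.ev p = Y.ev q) : p = q := by
  obtain ⟨x1, y1⟩ := p
  obtain ⟨x2, y2⟩ := q
  simp only [Fn.ev] at h3 h4
  have k1 : X.a * (x1 - x2) + X.b * (y1 - y2) = 0 := by linarith
  have k2 : Y.a * (x1 - x2) + Y.b * (y1 - y2) = 0 := by linarith
  have k3 : (X.a * Y.b - X.b * Y.a) * (x1 - x2) = 0 := by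
    linear_combination Y.b * k1 - X.b * k2
  have k4 : (X.a * Y.b - X.b * Y.a) * (y1 - y2) = 0 := by
    linear_combination X.a * k2 - Y.a * k1
  have k5 := (mul_eq_zero.mp k3).resolve_left hdet
  have k6 := (mul_eq_zero.mp k4).resolve_left hdet
  rw [Prod.mk.injEq]; exact ⟨by linarith, by linarith⟩

lemma sep_of (A B : Finset Pt) (hd : Disjoint A B) (hcard : A.card = B.card)
    (hnc : ¬ Coll (A ∪ B)) (v : Pt) (hv : v ∈ A)
    (hmax : ∀ p ∈ A ∪ B, p.1 ^ 2 + p.2 ^ 2 ≤ v.1 ^ 2 + v.2 ^ 2) : Split A B := by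
  classical
  set X : Fn := ⟨-v.1, -v.2, v.1 ^ 2 + v.2 ^ 2⟩ with hXdef
  set Y : Fn := ⟨-v.2, v.1, 0⟩ with hYdef
  have hvP : v ∈ A ∪ B := mem_union_left _ hv
  have hXv : X.ev v = 0 := by simp only [Fn.ev, hXdef]; ring
  have hYv : Y.ev v = 0 := by simp only [Fn.ev, hYdef]; ring
  have hBn : B.Nonempty := by
    rw [← card_pos, ← hcard, card_pos]; exact ⟨v, hv⟩
  obtain ⟨b0, hb0⟩ := hBn
  have hb0v : b0 ≠ v := fun h => (disjoint_left.mp hd hv) (h ▸ hb0)
  have hsq : ∀ p : Pt, p ≠ v → 0 < (p.1 - v.1) ^ 2 + (p.2 - v.2) ^ 2 := by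
    intro p hp
    by_contra hcon
    have h1 : (p.1 - v.1) ^ 2 = 0 := by nlinarith [sq_nonneg (p.1 - v.1), sq_nonneg (p.2 - v.2)]
    have h2 : (p.2 - v.2) ^ 2 = 0 := by nlinarith [sq_nonneg (p.1 - v.1), sq_nonneg (p.2 - v.2)]
    apply hp
    ext
    · have := pow_eq_zero_iff (two_ne_zero) |>.mp h1; linarith
    · have := pow_eq_zero_iff (two_ne_zero) |>.mp h2; linarith
  have hX : ∀ p ∈ A ∪ B, p ≠ v → 0 < X.ev p := by
    intro p hp hpv
    have h1 := hsq p hpv
    have h2 := hmax p hp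
    simp only [Fn.ev, hXdef]
    nlinarith
  have hvpos : 0 < v.1 ^ 2 + v.2 ^ 2 := by
    by_contra hcon
    have h1 := hmax b0 (mem_union_right _ hb0)
    have h2 := hsq b0 hb0v
    have h3 : v.1 = 0 := by nlinarith [sq_nonneg v.1, sq_nonneg v.2]
    have h4 : v.2 = 0 := by nlinarith [sq_nonneg v.1, sq_nonneg v.2]
    rw [h3, h4] at h1 h2
    nlinarith
  have hdet : X.a * Y.b - X.b * Y.a ≠ 0 := by
    simp only [hXdef, hYdef]
    have : -v.1 * v.1 - -v.2 * -v.2 = -(v.1 ^ 2 + v.2 ^ 2) := by ring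
    rw [this]
    exact neg_ne_zero.mpr hvpos.ne'
  set Q := (A ∪ B).erase v with hQ
  set key : Pt → ℝ ×ₗ ℝ := fun p => toLex (Y.ev p / X.ev p, X.ev p) with hkey
  have hQmem : ∀ p, p ∈ Q ↔ p ≠ v ∧ p ∈ A ∪ B := by intro p; rw [hQ, mem_erase]
  have hXpos : ∀ p ∈ Q, 0 < X.ev p := fun p hp => hX p ((hQmem p).mp hp).2 ((hQmem p).mp hp).1
  have hinj : ∀ p ∈ Q, ∀ q ∈ Q, key p = key q → p = q := by
    intro p hp q hq hpq
    have h1 : (Y.ev p / X.ev p, X.ev p) = (Y.ev q / X.ev q, X.ev q) := toLex.injective hpq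
    rw [Prod.mk.injEq] at h1
    obtain ⟨h2, h3⟩ := h1
    have hXp := hXpos p hp
    rw [← h3] at h2
    have h4 : Y.ev p = Y.ev q := by
      field_simp at h2; exact h2
    exact det_inj X Y hdet p q h3 h4
  have hb0Q : b0 ∈ Q := (hQmem b0).mpr ⟨hb0v, mem_union_right _ hb0⟩
  obtain ⟨m, hmQ, hmmax⟩ := exists_max_image Q key ⟨b0, hb0Q⟩
  have hm' := (hQmem m).mp hmQ
  by_cases hmA : m ∈ A
  · have hb0m : b0 ≠ m := fun h => (disjoint_left.mp hd hmA) (h ▸ hb0)
    obtain ⟨q0, hq0, hq0max⟩ := exists_max_image (Q.erase m) key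
      ⟨b0, mem_erase.mpr ⟨hb0m, hb0Q⟩⟩
    obtain ⟨hq0m, hq0Q⟩ := mem_erase.mp hq0
    have hlt : key q0 < key m :=
      lt_of_le_of_ne (hmmax q0 hq0Q) (fun h => hq0m (hinj q0 hq0Q m hmQ h))
    have hfil : Q.filter (fun p => key p ≤ key q0) = Q.erase m := by
      apply Finset.ext
      intro p
      constructor
      · intro hp
        obtain ⟨h1, h2⟩ := mem_filter.mp hp
        refine mem_erase.mpr ⟨?_, h1⟩
        intro hpm
        rw [hpm] at h2
        exact absurd h2 (not_le.mpr hlt)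
      · intro hp
        obtain ⟨h1, h2⟩ := mem_erase.mp hp
        exact mem_filter.mpr ⟨h2, hq0max p (mem_erase.mpr ⟨h1, h2⟩)⟩
    refine core A B hd hcard X Y hdet v hv hXv hYv hX q0 hq0Q ?_ m hmQ hlt
    have htot := sum_wt hd (fun _ => True)
    simp only [filter_true] at htot
    rw [← add_sum_erase _ _ hvP, wt_mem hv, ← hQ, ← add_sum_erase _ _ hmQ, wt_mem hmA] at htot
    change 1 + ∑ p ∈ Q.filter (fun p => key p ≤ key q0), wt A p ≤ 0
    rw [hfil]
    omega
  · have hmB : m ∈ B := (mem_union.mp hm'.2).resolve_left hmA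
    have hXm := hXpos m hmQ
    set w := (Y.lin X (-(X.ev m)) (Y.ev m)) with hw
    have hwev : ∀ p, w.ev p = Y.ev m * X.ev p - X.ev m * Y.ev p := by
      intro p; rw [hw, ev_lin]; ring
    have hwt : ∀ p ∈ Q, w.ev p = X.ev m * X.ev p * (Y.ev m / X.ev m - Y.ev p / X.ev p) := by
      intro p hp
      have := hXpos p hp
      rw [hwev]; field_simp
    have hkle : ∀ p, key p ≤ key m ↔ (Y.ev p / X.ev p < Y.ev m / X.ev m ∨
        (Y.ev p / X.ev p = Y.ev m / X.ev m ∧ X.ev p ≤ X.ev m)) := by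
      intro p
      rw [hkey]
      exact Prod.Lex.toLex_le_toLex
    have hwv : w.ev v = 0 := by rw [hwev, hXv, hYv]; ring
    have hwm : w.ev m = 0 := by rw [hwev]; ring
    have hNZ : w.NZ := by
      by_contra hcon
      unfold Fn.NZ at hcon
      push Not at hcon
      obtain ⟨h1, h2⟩ := hcon
      simp only [hw, Fn.lin] at h1 h2
      apply hdet
      have h3 : X.ev m * (X.a * Y.b - X.b * Y.a) = 0 := by
        linear_combination X.b * h1 - X.a * h2
      exact (mul_eq_zero.mp h3).resolve_left hXm.ne'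
    refine ecase A B hd hcard hnc w X hNZ ?_ ?_ v hv hwv m hmB hwm ?_ ?_
    · intro p hp
      by_cases hpv : p = v
      · rw [hpv, hwv]
      have hpQ : p ∈ Q := (hQmem p).mpr ⟨hpv, hp⟩
      rw [hwt p hpQ]
      have h1 := hXpos p hpQ
      have h2 : 0 ≤ Y.ev m / X.ev m - Y.ev p / X.ev p := by
        rcases (hkle p).mp (hmmax p hpQ) with h | h
        · linarith
        · linarith [h.1.le]
      exact mul_nonneg (mul_pos hXm h1).le h2
    · intro p _ q _ hwp hwq hpq
      refine det_inj X Y hdet p q hpq ?_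
      rw [hwev] at hwp hwq
      rw [hpq] at hwp
      have h1 : X.ev m * (Y.ev p - Y.ev q) = 0 := by linarith
      have h2 := (mul_eq_zero.mp h1).resolve_left hXm.ne'
      linarith
    · intro p hp _
      by_cases hpv : p = v
      · rw [hpv]
      · rw [hXv]; exact (hX p hp hpv).le
    · intro p hp hwp
      by_cases hpv : p = v
      · rw [hpv, hXv]; exact hXm.le
      have hpQ : p ∈ Q := (hQmem p).mpr ⟨hpv, hp⟩
      rw [hwt p hpQ] at hwp
      have h1 := hXpos p hpQ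
      have h2 := (mul_eq_zero.mp hwp).resolve_left (mul_pos hXm h1).ne'
      rcases (hkle p).mp (hmmax p hpQ) with h | h
      · linarith
      · exact h.2

/-- Every noncollinear balanced red-blue set has a balanced split. -/
theorem sep (A B : Finset Pt) (hd : Disjoint A B) (hcard : A.card = B.card)
    (hnc : ¬ Coll (A ∪ B)) : Split A B := by
  classical
  have hne : (A ∪ B).Nonempty := by
    by_contra hcon
    rw [not_nonempty_iff_eq_empty] at hcon
    exact hnc ⟨⟨1, 0, 0⟩, Or.inl one_ne_zero, by rw [hcon]; simp⟩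
  obtain ⟨v, hvP, hmax⟩ := exists_max_image (A ∪ B) (fun p => p.1 ^ 2 + p.2 ^ 2) hne
  rcases mem_union.mp hvP with hv | hv
  · exact sep_of A B hd hcard hnc v hv hmax
  · refine (sep_of B A hd.symm hcard.symm (by rw [union_comm]; exact hnc) v hv ?_).symm
    intro p hp; exact hmax p (by rw [union_comm]; exact hp)

/-- **Main counting theorem.** Let `A`, `B` be disjoint sets of `n ≥ 1` points of the plane such
that no line contains more than `k` points of `A` and more than `k` points of `B`, and let `C` meet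
every open segment between `A` and `B`. If `A ∪ B` is not contained in a line then
`k (|C| + 1) ≥ (k + 1) n`, that is `|C| ≥ n - 1 + n / k`. -/
theorem main_count (k : ℕ) : ∀ (n : ℕ) (A B C : Finset Pt), A.card = n → B.card = n → 1 ≤ n →
    Disjoint A B → HK k A B → Blk A B C → ¬ Coll (A ∪ B) → (k + 1) * n ≤ k * (C.card + 1) := by
  classical
  intro n
  induction n using Nat.strong_induction_on with
  | _ n ih =>
    intro A B C hA hB hn hd hk hblk hnc
    obtain ⟨A1, A2, B1, B2, hAu, hAd, hBu, hBd, hc1, hc2, hn1, hn2, ψ, w, h1, h2, h3, h4, hNZ,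
      ⟨a, ha, ha0⟩, ⟨b, hb, hb0⟩⟩ := sep A B hd (hA.trans hB.symm) hnc
    have hA12 : A1.card + A2.card = n := by rw [← card_union_of_disjoint hAd, hAu, hA]
    have hp1 : 1 ≤ A1.card := card_pos.mpr hn1
    have hp2 : 1 ≤ A2.card := card_pos.mpr hn2
    have hA1s : A1 ⊆ A := by rw [← hAu]; exact subset_union_left
    have hA2s : A2 ⊆ A := by rw [← hAu]; exact subset_union_right
    have hB1s : B1 ⊆ B := by rw [← hBu]; exact subset_union_left
    have hB2s : B2 ⊆ B := by rw [← hBu]; exact subset_union_right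
    have hd1 : Disjoint A1 B1 := disjoint_of_subset_left hA1s (disjoint_of_subset_right hB1s hd)
    have hd2 : Disjoint A2 B2 := disjoint_of_subset_left hA2s (disjoint_of_subset_right hB2s hd)
    have hk1 := hk.mono hA1s hB1s
    have hk2 := hk.mono hA2s hB2s
    have hblk' : Blk (A1 ∪ A2) (B1 ∪ B2) C := by rw [hAu, hBu]; exact hblk
    have hblk'' : Blk (A2 ∪ A1) (B2 ∪ B1) C := by
      rw [union_comm A2, union_comm B2]; exact hblk'
    by_cases k1 : Coll (A1 ∪ B1)
    · have hle1 : A1.card ≤ k := hk1.coll rfl hc1.symm k1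
      obtain ⟨w1, hw1, hz1⟩ := k1
      by_cases k2 : Coll (A2 ∪ B2)
      · have hle2 : A2.card ≤ k := hk2.coll rfl hc2.symm k2
        obtain ⟨w2, hw2, hz2⟩ := k2
        have hnc' : ¬ Coll ((A1 ∪ A2) ∪ (B1 ∪ B2)) := by rw [hAu, hBu]; exact hnc
        have := two_lines A1 B1 A2 B2 C ψ w1 w2 A1.card A2.card hp1 hp2 rfl hc1.symm rfl hc2.symm
          hd1 hd2 hw1 hw2 h1 h2 hz1 hz2 hnc' hblk'
        have h5 : n + 1 ≤ C.card := by omega
        have h6 : n ≤ 2 * k := by omega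
        nlinarith
      · have hex : ∃ p ∈ A2 ∪ B2, w1.ev p ≠ 0 := by
          by_contra hcon
          push Not at hcon
          exact k2 ⟨w1, hw1, hcon⟩
        obtain ⟨C2, hC2, hb2, hcard2⟩ := peel A1 B1 A2 B2 C ψ w1 A1.card hp1 rfl hc1.symm
          (fun p hp => ⟨h1 p hp, hz1 p hp⟩) h2 hex hblk'
        have := ih A2.card (by omega) A2 B2 C2 rfl hc2.symm hp2 hd2 hk2 hb2 k2
        nlinarith
    · by_cases k2 : Coll (A2 ∪ B2)
      · have hle2 : A2.card ≤ k := hk2.coll rfl hc2.symm k2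
        obtain ⟨w2, hw2, hz2⟩ := k2
        have hex : ∃ p ∈ A1 ∪ B1, w2.ev p ≠ 0 := by
          by_contra hcon
          push Not at hcon
          exact k1 ⟨w2, hw2, hcon⟩
        obtain ⟨C1, hC1, hb1, hcard1⟩ := peel A2 B2 A1 B1 C ψ.opp w2 A2.card hp2 rfl hc2.symm
          (fun p hp => ⟨by rw [ev_opp]; linarith [h2 p hp], hz2 p hp⟩)
          (fun p hp => by rw [ev_opp]; linarith [h1 p hp]) hex hblk''
        have := ih A1.card (by omega) A1 B1 C1 rfl hc1.symm hp1 hd1 hk1 hb1 k1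
        nlinarith
      · have hex : ∃ p ∈ A2 ∪ B2, 0 < w.ev p := by
          by_contra hcon
          push Not at hcon
          exact k2 ⟨w, hNZ, fun p hp => le_antisymm (hcon p hp) (h4 p hp)⟩
        obtain ⟨C1, C2, hC1, hC2, hb1, hb2, hcard12⟩ := glue A1 B1 A2 B2 C ψ w h1 h2 h3 a ha ha0
          b hb hb0 hex hblk'
        have i1 := ih A1.card (by omega) A1 B1 C1 rfl hc1.symm hp1 hd1 hk1 hb1 k1
        have i2 := ih A2.card (by omega) A2 B2 C2 rfl hc2.symm hp2 hd2 hk2 hb2 k2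
        nlinarith

end Pool.Vis
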