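import Pool.Agent.Vis.TwoLines

/-!
# Existence of a balanced separable part
-/

namespace Pool.Vis

open Finset

/-- A balanced split of a red-blue set by a line, together with a line through two points of
different colours of the first part which weakly separates the parts. -/
def Split (A B : Finset Pt) : Prop :=
  ∃ A1 A2 B1 B2 : Finset Pt, A1 ∪ A2 = A ∧ Disjoint A1 A2 ∧ B1 ∪ B2 = B ∧ Disjoint B1 B2 ∧
    A1.card = B1.card ∧ A2.card = B2.card ∧ A1.Nonempty ∧ A2.Nonempty ∧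
    ∃ ψ w : Fn, (∀ p ∈ A1 ∪ B1, ψ.ev p < 0) ∧ (∀ p ∈ A2 ∪ B2, 0 < ψ.ev p) ∧
      (∀ p ∈ A1 ∪ B1, w.ev p ≤ 0) ∧ (∀ p ∈ A2 ∪ B2, 0 ≤ w.ev p) ∧ w.NZ ∧
      (∃ a ∈ A1, w.ev a = 0) ∧ (∃ b ∈ B1, w.ev b = 0)

lemma Split.symm {A B : Finset Pt} (h : Split A B) : Split B A := by
  obtain ⟨A1, A2, B1, B2, hA, hdA, hB, hdB, hc1, hc2, hn1, hn2, ψ, w, h1, h2, h3, h4, h5, h6, h7⟩ := h
  refine ⟨B1, B2, A1, A2, hB, hdB, hA, hdA, hc1.symm, hc2.symm, ?_, ?_, ψ, w, ?_, ?_, ?_, ?_,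
    h5, h7, h6⟩
  · rw [← card_pos, ← hc1, card_pos]; exact hn1
  · rw [← card_pos, ← hc2, card_pos]; exact hn2
  · intro p hp; exact h1 p (by rw [union_comm]; exact hp)
  · intro p hp; exact h2 p (by rw [union_comm]; exact hp)
  · intro p hp; exact h3 p (by rw [union_comm]; exact hp)
  · intro p hp; exact h4 p (by rw [union_comm]; exact hp)

lemma pre_zero {ι : Type*} [LinearOrder ι] (Q : Finset Pt) (key : Pt → ι) (w : Pt → ℤ)
    (hinj : Set.InjOn key (Q : Set Pt)) (hw : ∀ p ∈ Q, w p = 1 ∨ w p = -1) (q0 : Pt)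
    (hq0 : q0 ∈ Q) (h0 : 1 + ∑ p ∈ Q.filter (fun p => key p ≤ key q0), w p ≤ 0) :
    ∃ q ∈ Q, key q ≤ key q0 ∧ w q = -1 ∧
      1 + ∑ p ∈ Q.filter (fun p => key p ≤ key q), w p = 0 := by
  classical
  set F := Q.filter (fun q => 1 + ∑ p ∈ Q.filter (fun p => key p ≤ key q), w p ≤ 0) with hF
  have hq0F : q0 ∈ F := mem_filter.mpr ⟨hq0, h0⟩
  obtain ⟨q, hqF, hmin⟩ := exists_min_image F key ⟨q0, hq0F⟩
  obtain ⟨hqQ, hq⟩ := mem_filter.mp hqF
  set L := Q.filter (fun p => key p < key q) with hL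
  have hsplit : Q.filter (fun p => key p ≤ key q) = insert q L := by
    ext p
    simp only [hL, mem_filter, mem_insert]
    constructor
    · rintro ⟨hp, hk⟩
      rcases eq_or_lt_of_le hk with hk | hk
      · exact Or.inl (hinj hp hqQ hk)
      · exact Or.inr ⟨hp, hk⟩
    · rintro (rfl | ⟨hp, hk⟩)
      · exact ⟨hqQ, le_refl _⟩
      · exact ⟨hp, hk.le⟩
  have hqL : q ∉ L := by simp [hL]
  have hsum : ∑ p ∈ Q.filter (fun p => key p ≤ key q), w p = w q + ∑ p ∈ L, w p := by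
    rw [hsplit, sum_insert hqL]
  have hpos : 1 ≤ 1 + ∑ p ∈ L, w p := by
    rcases L.eq_empty_or_nonempty with hLe | hLn
    · rw [hLe, sum_empty]; norm_num
    · obtain ⟨q', hq'L, hmax⟩ := exists_max_image L key hLn
      have hq'Q : q' ∈ Q := (mem_filter.mp hq'L).1
      have hq'lt : key q' < key q := (mem_filter.mp hq'L).2
      have hLeq : Q.filter (fun p => key p ≤ key q') = L := by
        ext p
        simp only [hL, mem_filter]
        constructor
        · rintro ⟨hp, hk⟩; exact ⟨hp, lt_of_le_of_lt hk hq'lt⟩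
        · rintro ⟨hp, hk⟩; exact ⟨hp, hmax p (mem_filter.mpr ⟨hp, hk⟩)⟩
      by_contra hcon
      have hq'F : q' ∈ F := by
        refine mem_filter.mpr ⟨hq'Q, ?_⟩
        rw [hLeq]; omega
      exact absurd (hmin q' hq'F) (not_le.mpr hq'lt)
  rw [hsum] at hq
  refine ⟨q, hqQ, hmin q0 hq0F, ?_, ?_⟩
  · rcases hw q hqQ with h | h
    · omega
    · exact h
  · rw [hsum]
    rcases hw q hqQ with h | h
    · omega
    · omega

/-- Colour weights. -/
noncomputable def wt (A : Finset Pt) (p : Pt) : ℤ := by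
  classical
  exact if p ∈ A then 1 else -1

lemma wt_mem {A : Finset Pt} {p : Pt} (h : p ∈ A) : wt A p = 1 := by
  unfold wt; rw [if_pos h]

lemma wt_notMem {A : Finset Pt} {p : Pt} (h : p ∉ A) : wt A p = -1 := by
  unfold wt; rw [if_neg h]

lemma wt_or (A : Finset Pt) (p : Pt) : wt A p = 1 ∨ wt A p = -1 := by
  by_cases h : p ∈ A
  · exact Or.inl (wt_mem h)
  · exact Or.inr (wt_notMem h)

lemma sum_wt {A B : Finset Pt} (hd : Disjoint A B) (S : Pt → Prop) [DecidablePred S] :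
    ∑ p ∈ (A ∪ B).filter S, wt A p = ((A.filter S).card : ℤ) - (B.filter S).card := by
  classical
  rw [filter_union, sum_union (disjoint_filter_filter hd)]
  have h1 : ∑ p ∈ A.filter S, wt A p = ((A.filter S).card : ℤ) := by
    rw [sum_congr rfl (fun p hp => wt_mem (mem_filter.mp hp).1)]
    simp
  have h2 : ∑ p ∈ B.filter S, wt A p = -((B.filter S).card : ℤ) := by
    rw [sum_congr rfl (fun p hp => wt_notMem
      (fun h => (disjoint_left.mp hd h) (mem_filter.mp hp).1))]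
    simp
  rw [h1, h2]; ring

lemma exists_eps (P : Finset Pt) (f g : Fn) :
    ∃ e : ℝ, 0 < e ∧ ∀ p ∈ P, f.ev p ≠ 0 → e * |g.ev p| < |f.ev p| := by
  classical
  induction P using Finset.induction_on with
  | empty => exact ⟨1, one_pos, by simp⟩
  | insert x P hx ih =>
    obtain ⟨e, he, h⟩ := ih
    by_cases hfx : f.ev x = 0
    · refine ⟨e, he, fun p hp hp0 => ?_⟩
      rcases mem_insert.mp hp with rfl | hp
      · exact absurd hfx hp0
      · exact h p hp hp0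
    · have hd : 0 < |f.ev x| / (|g.ev x| + 1) := div_pos (abs_pos.mpr hfx) (by positivity)
      refine ⟨min e (|f.ev x| / (|g.ev x| + 1)), lt_min he hd, fun p hp hp0 => ?_⟩
      rcases mem_insert.mp hp with rfl | hp
      · calc min e (|f.ev p| / (|g.ev p| + 1)) * |g.ev p|
            ≤ (|f.ev p| / (|g.ev p| + 1)) * |g.ev p| :=
              mul_le_mul_of_nonneg_right (min_le_right _ _) (abs_nonneg _)
          _ < |f.ev p| := by
              rw [div_mul_eq_mul_div, div_lt_iff₀ (by positivity)]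
              have := abs_pos.mpr hfx
              nlinarith [abs_nonneg (g.ev p)]
      · exact lt_of_le_of_lt (mul_le_mul_of_nonneg_right (min_le_left _ _) (abs_nonneg _))
          (h p hp hp0)

lemma lexsep (P : Finset Pt) (S : Pt → Prop) (f g : Fn)
    (h1 : ∀ p ∈ P, S p → f.ev p < 0 ∨ (f.ev p = 0 ∧ g.ev p < 0))
    (h2 : ∀ p ∈ P, ¬ S p → 0 < f.ev p ∨ (f.ev p = 0 ∧ 0 < g.ev p)) :
    ∃ ψ : Fn, (∀ p ∈ P, S p → ψ.ev p < 0) ∧ (∀ p ∈ P, ¬ S p → 0 < ψ.ev p) := by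
  obtain ⟨e, he, h⟩ := exists_eps P f g
  refine ⟨f.comb g e, fun p hp hS => ?_, fun p hp hS => ?_⟩
  · rw [ev_comb]
    rcases h1 p hp hS with h3 | ⟨h3, h4⟩
    · have := h p hp h3.ne
      rw [abs_of_neg h3] at this
      have h5 := le_abs_self (g.ev p)
      nlinarith [mul_le_mul_of_nonneg_left h5 he.le]
    · rw [h3]; nlinarith
  · rw [ev_comb]
    rcases h2 p hp hS with h3 | ⟨h3, h4⟩
    · have := h p hp h3.ne'
      rw [abs_of_pos h3] at this
      have h5 := neg_abs_le (g.ev p)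
      nlinarith [mul_le_mul_of_nonneg_left h5 he.le]
    · rw [h3]; nlinarith

lemma exists_gap (P : Finset Pt) (f : Fn) (x : ℝ) :
    ∃ c : ℝ, x < c ∧ ∀ p ∈ P, x < f.ev p → c < f.ev p := by
  classical
  induction P using Finset.induction_on with
  | empty => exact ⟨x + 1, by linarith, by simp⟩
  | insert y P hy ih =>
    obtain ⟨c, hc, h⟩ := ih
    by_cases hfy : x < f.ev y
    · refine ⟨min c ((x + f.ev y) / 2), lt_min hc (by linarith), fun p hp hp0 => ?_⟩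
      rcases mem_insert.mp hp with rfl | hp
      · exact lt_of_le_of_lt (min_le_right _ _) (by linarith)
      · exact lt_of_le_of_lt (min_le_left _ _) (h p hp hp0)
    · refine ⟨c, hc, fun p hp hp0 => ?_⟩
      rcases mem_insert.mp hp with rfl | hp
      · exact absurd hp0 hfy
      · exact h p hp hp0

/-- Building a split from a predicate. -/
lemma mk_split (A B : Finset Pt) (hcard : A.card = B.card) (S : Pt → Prop) [DecidablePred S]
    (f g w : Fn) (hbal : (A.filter S).card = (B.filter S).card)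
    (a b : Pt) (ha : a ∈ A) (haS : S a) (hwa : w.ev a = 0) (hb : b ∈ B) (hbS : S b)
    (hwb : w.ev b = 0) (r : Pt) (hr : r ∈ A ∪ B) (hrS : ¬ S r) (hNZ : w.NZ)
    (hw1 : ∀ p ∈ A ∪ B, S p → w.ev p ≤ 0) (hw2 : ∀ p ∈ A ∪ B, ¬ S p → 0 ≤ w.ev p)
    (h1 : ∀ p ∈ A ∪ B, S p → f.ev p < 0 ∨ (f.ev p = 0 ∧ g.ev p < 0))
    (h2 : ∀ p ∈ A ∪ B, ¬ S p → 0 < f.ev p ∨ (f.ev p = 0 ∧ 0 < g.ev p)) :
    Split A B := by
  classical
  obtain ⟨ψ, hψ1, hψ2⟩ := lexsep (A ∪ B) S f g h1 h2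
  have hcA := card_filter_add_card_filter_not (s := A) S
  have hcB := card_filter_add_card_filter_not (s := B) S
  have hcard2 : (A.filter (fun p => ¬ S p)).card = (B.filter (fun p => ¬ S p)).card := by omega
  have hne2 : (A.filter (fun p => ¬ S p)).Nonempty := by
    rcases mem_union.mp hr with hr | hr
    · exact ⟨r, mem_filter.mpr ⟨hr, hrS⟩⟩
    · rw [← card_pos, hcard2, card_pos]
      exact ⟨r, mem_filter.mpr ⟨hr, hrS⟩⟩
  refine ⟨A.filter S, A.filter (fun p => ¬ S p), B.filter S, B.filter (fun p => ¬ S p),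
    filter_union_filter_not_eq _ _, disjoint_filter_filter_not _ _ _,
    filter_union_filter_not_eq _ _, disjoint_filter_filter_not _ _ _, hbal, hcard2,
    ⟨a, mem_filter.mpr ⟨ha, haS⟩⟩, hne2, ψ, w, ?_, ?_, ?_, ?_, hNZ,
    ⟨a, mem_filter.mpr ⟨ha, haS⟩, hwa⟩, ⟨b, mem_filter.mpr ⟨hb, hbS⟩, hwb⟩⟩
  all_goals
    intro p hp
    rw [← filter_union, mem_filter] at hp
  · exact hψ1 p hp.1 hp.2
  · exact hψ2 p hp.1 hp.2
  · exact hw1 p hp.1 hp.2
  · exact hw2 p hp.1 hp.2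

/-- The split on a supporting line, when the second colour is at least as frequent on it. -/
lemma ecase_le (A B : Finset Pt) (hd : Disjoint A B) (hcard : A.card = B.card)
    (hnc : ¬ Coll (A ∪ B)) (w g : Fn) (hNZ : w.NZ) (hw : ∀ p ∈ A ∪ B, 0 ≤ w.ev p)
    (hg : ∀ p ∈ A ∪ B, ∀ q ∈ A ∪ B, w.ev p = 0 → w.ev q = 0 → g.ev p = g.ev q → p = q)
    (v : Pt) (hv : v ∈ A) (hwv : w.ev v = 0) (m : Pt) (hm : m ∈ B) (hwm : w.ev m = 0)
    (hmin : ∀ p ∈ A ∪ B, w.ev p = 0 → g.ev v ≤ g.ev p)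
    (hmax : ∀ p ∈ A ∪ B, w.ev p = 0 → g.ev p ≤ g.ev m)
    (hle : (A.filter (fun p => w.ev p = 0)).card ≤ (B.filter (fun p => w.ev p = 0)).card) :
    Split A B := by
  classical
  have hvP : v ∈ A ∪ B := mem_union_left _ hv
  have hmP : m ∈ A ∪ B := mem_union_right _ hm
  have hvm : v ≠ m := fun h => (disjoint_left.mp hd hv) (h ▸ hm)
  set Q := ((A ∪ B).filter (fun p => w.ev p = 0)).erase v with hQ
  have hQmem : ∀ p, p ∈ Q ↔ p ≠ v ∧ p ∈ A ∪ B ∧ w.ev p = 0 := by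
    intro p; rw [hQ, mem_erase, mem_filter]
  have hmQ : m ∈ Q := (hQmem m).mpr ⟨hvm.symm, hmP, hwm⟩
  have hall : Q.filter (fun p => g.ev p ≤ g.ev m) = Q := by
    apply filter_true_of_mem
    intro p hp
    exact hmax p ((hQmem p).mp hp).2.1 ((hQmem p).mp hp).2.2
  have hvE : v ∈ (A ∪ B).filter (fun p => w.ev p = 0) := mem_filter.mpr ⟨hvP, hwv⟩
  have hsumE := sum_wt hd (fun p => w.ev p = 0)
  have hsumQ : ∑ p ∈ Q, wt A p = ((A.filter (fun p => w.ev p = 0)).card : ℤ) -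
      (B.filter (fun p => w.ev p = 0)).card - 1 := by
    rw [← hsumE, ← add_sum_erase _ _ hvE, wt_mem hv]; ring
  obtain ⟨q, hqQ, hqk, hwq, hsum⟩ := pre_zero Q (fun p => g.ev p) (wt A) (by
    intro p hp q hq hpq
    have hp' := (hQmem p).mp hp
    have hq' := (hQmem q).mp hq
    exact hg p hp'.2.1 q hq'.2.1 hp'.2.2 hq'.2.2 hpq) (fun p _ => wt_or A p) m hmQ (by
    rw [hall, hsumQ]; omega)
  have hq' := (hQmem q).mp hqQ
  have hqB : q ∈ B := by
    rcases mem_union.mp hq'.2.1 with h | h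
    · rw [wt_mem h] at hwq; norm_num at hwq
    · exact h
  obtain ⟨c, hc, hcp⟩ := exists_gap (A ∪ B) g (g.ev q)
  have hSv : w.ev v = 0 ∧ g.ev v ≤ g.ev q := ⟨hwv, hmin q hq'.2.1 hq'.2.2⟩
  have hSq : w.ev q = 0 ∧ g.ev q ≤ g.ev q := ⟨hq'.2.2, le_refl _⟩
  have hins : (A ∪ B).filter (fun p => w.ev p = 0 ∧ g.ev p ≤ g.ev q) =
      insert v (Q.filter (fun p => g.ev p ≤ g.ev q)) := by
    ext p
    rw [mem_filter, mem_insert, mem_filter, hQmem]
    constructor
    · rintro ⟨h1, h2, h3⟩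
      by_cases hpv : p = v
      · exact Or.inl hpv
      · exact Or.inr ⟨⟨hpv, h1, h2⟩, h3⟩
    · rintro (rfl | ⟨⟨_, h1, h2⟩, h3⟩)
      · exact ⟨hvP, hSv⟩
      · exact ⟨h1, h2, h3⟩
  have hvn : v ∉ Q.filter (fun p => g.ev p ≤ g.ev q) := by
    intro h; exact ((hQmem v).mp (mem_filter.mp h).1).1 rfl
  have hbal := sum_wt hd (fun p => w.ev p = 0 ∧ g.ev p ≤ g.ev q)
  rw [hins, sum_insert hvn, wt_mem hv, hsum] at hbal
  have hr : ∃ r ∈ A ∪ B, w.ev r ≠ 0 := by
    by_contra hcon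
    push Not at hcon
    exact hnc ⟨w, hNZ, hcon⟩
  obtain ⟨r, hr, hr0⟩ := hr
  refine mk_split A B hcard (fun p => w.ev p = 0 ∧ g.ev p ≤ g.ev q) w ⟨g.a, g.b, g.c - c⟩ w
    ?_ v q hv hSv hwv hqB hSq hq'.2.2 r hr (fun h => hr0 h.1) hNZ ?_ ?_ ?_ ?_
  · have h3 : (A.filter (fun p => w.ev p = 0 ∧ g.ev p ≤ g.ev q)).card =
      (B.filter (fun p => w.ev p = 0 ∧ g.ev p ≤ g.ev q)).card := by omega
    exact h3
  · intro p _ hS; exact hS.1.le
  · intro p hp _; exact hw p hp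
  · intro p hp hS
    right
    refine ⟨hS.1, ?_⟩
    have h3 : (⟨g.a, g.b, g.c - c⟩ : Fn).ev p = g.ev p - c := by simp only [Fn.ev]; ring
    rw [h3]; linarith [hS.2]
  · intro p hp hS
    rcases eq_or_lt_of_le (hw p hp) with h3 | h3
    · right
      refine ⟨h3.symm, ?_⟩
      have h4 : (⟨g.a, g.b, g.c - c⟩ : Fn).ev p = g.ev p - c := by simp only [Fn.ev]; ring
      rw [h4]
      have h5 : g.ev q < g.ev p := by
        by_contra hcon
        exact hS ⟨h3.symm, not_lt.mp hcon⟩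
      linarith [hcp p hp h5]
    · exact Or.inl h3

lemma ecase (A B : Finset Pt) (hd : Disjoint A B) (hcard : A.card = B.card)
    (hnc : ¬ Coll (A ∪ B)) (w g : Fn) (hNZ : w.NZ) (hw : ∀ p ∈ A ∪ B, 0 ≤ w.ev p)
    (hg : ∀ p ∈ A ∪ B, ∀ q ∈ A ∪ B, w.ev p = 0 → w.ev q = 0 → g.ev p = g.ev q → p = q)
    (v : Pt) (hv : v ∈ A) (hwv : w.ev v = 0) (m : Pt) (hm : m ∈ B) (hwm : w.ev m = 0)
    (hmin : ∀ p ∈ A ∪ B, w.ev p = 0 → g.ev v ≤ g.ev p)
    (hmax : ∀ p ∈ A ∪ B, w.ev p = 0 → g.ev p ≤ g.ev m) : Split A B := by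
  classical
  rcases le_total ((A.filter (fun p => w.ev p = 0)).card) ((B.filter (fun p => w.ev p = 0)).card)
    with h | h
  · exact ecase_le A B hd hcard hnc w g hNZ hw hg v hv hwv m hm hwm hmin hmax h
  · have hu : B ∪ A = A ∪ B := union_comm _ _
    refine (ecase_le B A hd.symm hcard.symm (by rw [hu]; exact hnc) w g.opp hNZ
      (by rw [hu]; exact hw) ?_ m hm hwm v hv hwv ?_ ?_ h).symm
    · rw [hu]
      intro p hp q hq h1 h2 h3
      refine hg p hp q hq h1 h2 ?_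
      rw [ev_opp, ev_opp] at h3; linarith
    · rw [hu]
      intro p hp h1
      rw [ev_opp, ev_opp]; linarith [hmax p hp h1]
    · rw [hu]
      intro p hp h1
      rw [ev_opp, ev_opp]; linarith [hmin p hp h1]

/-- A linear combination of two functionals. -/
def Fn.lin (f g : Fn) (s t : ℝ) : Fn := ⟨s * f.a + t * g.a, s * f.b + t * g.b, s * f.c + t * g.c⟩

lemma ev_lin (f g : Fn) (s t : ℝ) (p : Pt) : (f.lin g s t).ev p = s * f.ev p + t * g.ev p := by
  simp only [Fn.ev, Fn.lin]; ring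

/-- The angular step around an extreme point. -/
lemma core (A B : Finset Pt) (hd : Disjoint A B) (hcard : A.card = B.card) (X Y : Fn)
    (hdet : X.a * Y.b - X.b * Y.a ≠ 0) (v : Pt) (hv : v ∈ A) (hXv : X.ev v = 0) (hYv : Y.ev v = 0)
    (hX : ∀ p ∈ A ∪ B, p ≠ v → 0 < X.ev p)
    (q0 : Pt) (hq0 : q0 ∈ (A ∪ B).erase v)
    (h0 : 1 + ∑ p ∈ ((A ∪ B).erase v).filter (fun p =>
      (toLex (Y.ev p / X.ev p, X.ev p) : ℝ ×ₗ ℝ) ≤ toLex (Y.ev q0 / X.ev q0, X.ev q0)), wt A p ≤ 0)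
    (r : Pt) (hr : r ∈ (A ∪ B).erase v)
    (hqr : (toLex (Y.ev q0 / X.ev q0, X.ev q0) : ℝ ×ₗ ℝ) < toLex (Y.ev r / X.ev r, X.ev r)) :
    Split A B := by
  classical
  set Q := (A ∪ B).erase v with hQ
  set key : Pt → ℝ ×ₗ ℝ := fun p => toLex (Y.ev p / X.ev p, X.ev p) with hkey
  have hQmem : ∀ p, p ∈ Q ↔ p ≠ v ∧ p ∈ A ∪ B := by intro p; rw [hQ, mem_erase]
  have hXpos : ∀ p ∈ Q, 0 < X.ev p := fun p hp => hX p ((hQmem p).mp hp).2 ((hQmem p).mp hp).1
  have hinj : Set.InjOn key (Q : Set Pt) := by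
    intro p hp q hq hpq
    have h1 : (Y.ev p / X.ev p, X.ev p) = (Y.ev q / X.ev q, X.ev q) := toLex.injective hpq
    rw [Prod.mk.injEq] at h1
    obtain ⟨h2, h3⟩ := h1
    have hXp := hXpos p hp
    rw [← h3] at h2
    have h4 : Y.ev p = Y.ev q := by
      field_simp at h2; exact h2
    obtain ⟨x1, y1⟩ := p
    obtain ⟨x2, y2⟩ := q
    simp only [Fn.ev] at h3 h4
    have k1 : X.a * (x1 - x2) + X.b * (y1 - y2) = 0 := by linarith
    have k2 : Y.a * (x1 - x2) + Y.b * (y1 - y2) = 0 := by linarith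
    have k3 : (X.a * Y.b - X.b * Y.a) * (x1 - x2) = 0 := by
      linear_combination Y.b * k1 - X.b * k2
    have k4 : (X.a * Y.b - X.b * Y.a) * (y1 - y2) = 0 := by
      linear_combination X.a * k2 - Y.a * k1
    have k5 := (mul_eq_zero.mp k3).resolve_left hdet
    have k6 := (mul_eq_zero.mp k4).resolve_left hdet
    rw [Prod.mk.injEq]; exact ⟨by linarith, by linarith⟩
  obtain ⟨b, hbQ, hbk, hwb, hsum⟩ := pre_zero Q key (wt A) hinj (fun p _ => wt_or A p) q0 hq0 h0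
  have hb' := (hQmem b).mp hbQ
  have hbB : b ∈ B := by
    rcases mem_union.mp hb'.2 with h | h
    · rw [wt_mem h] at hwb; norm_num at hwb
    · exact h
  have hvP : v ∈ A ∪ B := mem_union_left _ hv
  have hXb := hXpos b hbQ
  set w := Y.lin X (X.ev b) (-(Y.ev b)) with hw
  have hwev : ∀ p, w.ev p = X.ev b * Y.ev p - Y.ev b * X.ev p := by
    intro p; rw [hw, ev_lin]; ring
  have hwt : ∀ p ∈ Q, w.ev p = X.ev b * X.ev p * (Y.ev p / X.ev p - Y.ev b / X.ev b) := by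
    intro p hp
    have := hXpos p hp
    rw [hwev]; field_simp
  obtain ⟨c, hc, hcp⟩ := exists_gap (A ∪ B) X (X.ev b)
  have hkle : ∀ p, key p ≤ key b ↔ (Y.ev p / X.ev p < Y.ev b / X.ev b ∨
      (Y.ev p / X.ev p = Y.ev b / X.ev b ∧ X.ev p ≤ X.ev b)) := by
    intro p
    rw [hkey]
    exact Prod.Lex.toLex_le_toLex
  have hins : (A ∪ B).filter (fun p => p = v ∨ key p ≤ key b) =
      insert v (Q.filter (fun p => key p ≤ key b)) := by
    ext p
    rw [mem_filter, mem_insert, mem_filter, hQmem]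
    constructor
    · rintro ⟨h1, h2⟩
      by_cases hpv : p = v
      · exact Or.inl hpv
      · exact Or.inr ⟨⟨hpv, h1⟩, h2.resolve_left hpv⟩
    · rintro (rfl | ⟨⟨_, h1⟩, h2⟩)
      · exact ⟨hvP, Or.inl rfl⟩
      · exact ⟨h1, Or.inr h2⟩
  have hvn : v ∉ Q.filter (fun p => key p ≤ key b) := by
    intro h; exact ((hQmem v).mp (mem_filter.mp h).1).1 rfl
  have hbal := sum_wt hd (fun p => p = v ∨ key p ≤ key b)
  rw [hins, sum_insert hvn, wt_mem hv, hsum] at hbal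
  have hwv : w.ev v = 0 := by rw [hwev, hXv, hYv]; ring
  have hwb0 : w.ev b = 0 := by rw [hwev]; ring
  have hNZ : w.NZ := by
    by_contra hcon
    unfold Fn.NZ at hcon
    push Not at hcon
    obtain ⟨h1, h2⟩ := hcon
    simp only [hw, Fn.lin] at h1 h2
    apply hdet
    have h3 : X.ev b * (X.a * Y.b - X.b * Y.a) = 0 := by
      linear_combination X.a * h2 - X.b * h1
    exact (mul_eq_zero.mp h3).resolve_left hXb.ne'
  have hrS : ¬ (r = v ∨ key r ≤ key b) := by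
    rintro (h | h)
    · exact ((hQmem r).mp hr).1 h
    · exact absurd (lt_of_le_of_lt (h.trans hbk) hqr) (lt_irrefl _)
  refine mk_split A B hcard (fun p => p = v ∨ key p ≤ key b) w ⟨X.a, X.b, X.c - c⟩ w
    ?_ v b hv (Or.inl rfl) hwv hbB (Or.inr le_rfl) hwb0 r ((hQmem r).mp hr).2 hrS hNZ ?_ ?_ ?_ ?_
  · have h3 : (A.filter (fun p => p = v ∨ key p ≤ key b)).card =
      (B.filter (fun p => p = v ∨ key p ≤ key b)).card := by omega
    exact h3
  · intro p hp hS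
    by_cases hpv : p = v
    · rw [hpv, hwv]
    have hpQ : p ∈ Q := (hQmem p).mpr ⟨hpv, hp⟩
    rw [hwt p hpQ]
    have h1 := hXpos p hpQ
    have h2 : Y.ev p / X.ev p - Y.ev b / X.ev b ≤ 0 := by
      rcases (hkle p).mp (hS.resolve_left hpv) with h | h
      · linarith
      · linarith [h.1.le]
    exact mul_nonpos_of_nonneg_of_nonpos (mul_pos hXb h1).le h2
  · intro p hp hS
    push Not at hS
    have hpQ : p ∈ Q := (hQmem p).mpr ⟨hS.1, hp⟩
    rw [hwt p hpQ]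
    have h1 := hXpos p hpQ
    have h2 : 0 ≤ Y.ev p / X.ev p - Y.ev b / X.ev b := by
      by_contra hcon
      have : key p ≤ key b := (hkle p).mpr (Or.inl (by linarith))
      exact absurd hS.2 (not_lt.mpr this)
    exact mul_nonneg (mul_pos hXb h1).le h2
  · intro p hp hS
    have hev : (⟨X.a, X.b, X.c - c⟩ : Fn).ev p = X.ev p - c := by simp only [Fn.ev]; ring
    by_cases hpv : p = v
    · right
      rw [hev, hpv, hXv]
      exact ⟨hwv, by linarith⟩
    have hpQ : p ∈ Q := (hQmem p).mpr ⟨hpv, hp⟩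
    have h1 := hXpos p hpQ
    rw [hev, hwt p hpQ]
    rcases (hkle p).mp (hS.resolve_left hpv) with h | h
    · left
      exact mul_neg_of_pos_of_neg (mul_pos hXb h1) (by linarith)
    · right
      refine ⟨by rw [h.1, sub_self, mul_zero], by linarith [h.2]⟩
  · intro p hp hS
    push Not at hS
    have hev : (⟨X.a, X.b, X.c - c⟩ : Fn).ev p = X.ev p - c := by simp only [Fn.ev]; ring
    have hpQ : p ∈ Q := (hQmem p).mpr ⟨hS.1, hp⟩
    have h1 := hXpos p hpQ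
    rw [hev, hwt p hpQ]
    have hnot : ¬ (key p ≤ key b) := not_le.mpr hS.2
    rw [hkle p] at hnot
    push Not at hnot
    rcases eq_or_lt_of_le hnot.1 with h | h
    · right
      have h3 := hnot.2 h.symm
      refine ⟨by rw [← h, sub_self, mul_zero], by linarith [hcp p hp h3]⟩
    · left
      exact mul_pos (mul_pos hXb h1) (by linarith)

end Pool.Vis
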