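import Pool.Agent.Vis.Count

/-!
# Two collinear balanced parts on different lines
-/

namespace Pool.Vis

open Finset

lemma seg_ne (f : Fn) {p q z : Pt} (hz : z ∈ openSegment ℝ p q) (hp : f.ev p ≠ 0)
    (hq : f.ev q = 0) : f.ev z ≠ 0 := by
  obtain ⟨s, t, hs, ht, hst, h⟩ := ev_seg f hz
  rw [h, hq, mul_zero, add_zero]
  exact mul_ne_zero hs.ne' hp

lemma two_aux (A1 B1 A2 B2 C : Finset Pt) (w1 w2 g : Fn) (n1 n2 : ℕ) (hn1 : 1 ≤ n1)
    (hn2 : 1 ≤ n2) (hA1 : A1.card = n1) (hB1 : B1.card = n1) (hA2 : A2.card = n2)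
    (hB2 : B2.card = n2)
    (h1 : ∀ p ∈ A1 ∪ B1, w1.ev p = 0 ∧ 0 < w2.ev p) (h2 : ∀ p ∈ A2 ∪ B2, w2.ev p = 0)
    (y : Pt) (hy : y ∈ A2 ∪ B2) (hyw : w1.ev y ≠ 0) (hgy : g.ev y = 0)
    (hg : ∀ p ∈ A2 ∪ B2, p ≠ y → 0 < g.ev p)
    (hB : Blk (A1 ∪ A2) (B1 ∪ B2) C) : n1 + n2 + 1 ≤ C.card := by
  classical
  have hA1n : A1.Nonempty := card_pos.mp (by omega)
  have hB1n : B1.Nonempty := card_pos.mp (by omega)
  have hA2n : A2.Nonempty := card_pos.mp (by omega)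
  have hB2n : B2.Nonempty := card_pos.mp (by omega)
  obtain ⟨x, hx, hmax⟩ := exists_max_image (A1 ∪ B1) (fun p => g.ev p / w2.ev p)
    (hA1n.mono subset_union_left)
  set s := g.ev x / w2.ev x with hs
  set φ := g.comb w2 (-s) with hφ
  have hx2 := (h1 x hx).2
  have hφx : φ.ev x = 0 := by
    rw [hφ, ev_comb, hs]; field_simp; ring
  have hφ1 : ∀ p ∈ A1 ∪ B1, φ.ev p ≤ 0 := by
    intro p hp
    have h3 := hmax p hp
    have hp2 := (h1 p hp).2
    rw [hφ, ev_comb]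
    have h4 : g.ev p ≤ s * w2.ev p := by
      have h5 : g.ev p / w2.ev p ≤ s := h3
      rwa [div_le_iff₀ hp2] at h5
    linarith
  have hφ2 : ∀ p ∈ A2 ∪ B2, φ.ev p = g.ev p := by
    intro p hp
    rw [hφ, ev_comb, h2 p hp]; ring
  have hφy : φ.ev y = 0 := by rw [hφ2 y hy, hgy]
  have hy2 : w2.ev y = 0 := h2 y hy
  -- first star
  have hD1 : ∃ D : Finset Pt, D ⊆ C ∧ D.card = n1 ∧
      ∀ c ∈ D, φ.ev c ≤ 0 ∧ 0 < w2.ev c ∧ w1.ev c ≠ 0 := by
    rcases mem_union.mp hy with hy' | hy'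
    · obtain ⟨D, hD, hDc, hDs⟩ := star C y B1 w1 hyw (fun t ht => (h1 t (mem_union_right _ ht)).1)
        (fun t ht => hB y (mem_union_right _ hy') t (mem_union_left _ ht))
      refine ⟨D, hD, hDc.trans hB1, fun c hc => ?_⟩
      obtain ⟨t, ht, hseg⟩ := hDs c hc
      exact ⟨seg_nonpos φ hseg hφy.le (hφ1 t (mem_union_right _ ht)),
        seg_pos_r w2 hseg hy2.ge (h1 t (mem_union_right _ ht)).2,
        seg_ne w1 hseg hyw (h1 t (mem_union_right _ ht)).1⟩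
    · obtain ⟨D, hD, hDc, hDs⟩ := star C y A1 w1 hyw (fun t ht => (h1 t (mem_union_left _ ht)).1)
        (fun t ht => by
          obtain ⟨c, hc, hs⟩ := hB t (mem_union_left _ ht) y (mem_union_right _ hy')
          exact ⟨c, hc, by rwa [openSegment_symm]⟩)
      refine ⟨D, hD, hDc.trans hA1, fun c hc => ?_⟩
      obtain ⟨t, ht, hseg⟩ := hDs c hc
      exact ⟨seg_nonpos φ hseg hφy.le (hφ1 t (mem_union_left _ ht)),
        seg_pos_r w2 hseg hy2.ge (h1 t (mem_union_left _ ht)).2,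
        seg_ne w1 hseg hyw (h1 t (mem_union_left _ ht)).1⟩
  -- second star
  have hD2 : ∃ D : Finset Pt, D ⊆ C ∧ n2 ≤ D.card + 1 ∧
      ∀ c ∈ D, 0 < φ.ev c ∧ 0 < w2.ev c := by
    rcases mem_union.mp hx with hx' | hx'
    · obtain ⟨D, hD, hDc, hDs⟩ := star C x (B2.erase y) w2 hx2.ne'
        (fun t ht => h2 t (mem_union_right _ (mem_of_mem_erase ht)))
        (fun t ht => hB x (mem_union_left _ hx') t (mem_union_right _ (mem_of_mem_erase ht)))
      refine ⟨D, hD, ?_, fun c hc => ?_⟩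
      · rw [hDc]; have := pred_card_le_card_erase (a := y) (s := B2); omega
      · obtain ⟨t, ht, hseg⟩ := hDs c hc
        have ht' : t ∈ A2 ∪ B2 := mem_union_right _ (mem_of_mem_erase ht)
        exact ⟨seg_pos_r φ hseg hφx.ge (by rw [hφ2 t ht']; exact hg t ht' (ne_of_mem_erase ht)),
          seg_pos_l w2 hseg hx2 (h2 t ht').ge⟩
    · obtain ⟨D, hD, hDc, hDs⟩ := star C x (A2.erase y) w2 hx2.ne'
        (fun t ht => h2 t (mem_union_left _ (mem_of_mem_erase ht)))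
        (fun t ht => by
          obtain ⟨c, hc, hs⟩ := hB t (mem_union_right _ (mem_of_mem_erase ht)) x
            (mem_union_left _ hx')
          exact ⟨c, hc, by rwa [openSegment_symm]⟩)
      refine ⟨D, hD, ?_, fun c hc => ?_⟩
      · rw [hDc]; have := pred_card_le_card_erase (a := y) (s := A2); omega
      · obtain ⟨t, ht, hseg⟩ := hDs c hc
        have ht' : t ∈ A2 ∪ B2 := mem_union_left _ (mem_of_mem_erase ht)
        exact ⟨seg_pos_r φ hseg hφx.ge (by rw [hφ2 t ht']; exact hg t ht' (ne_of_mem_erase ht)),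
          seg_pos_l w2 hseg hx2 (h2 t ht').ge⟩
  obtain ⟨D1, hD1C, hD1c, hD1p⟩ := hD1
  obtain ⟨D2, hD2C, hD2c, hD2p⟩ := hD2
  obtain ⟨a1, ha1⟩ := hA1n
  obtain ⟨b1, hb1⟩ := hB1n
  obtain ⟨a2, ha2⟩ := hA2n
  obtain ⟨b2, hb2⟩ := hB2n
  obtain ⟨c1, hc1, hs1⟩ := hB a1 (mem_union_left _ ha1) b1 (mem_union_left _ hb1)
  obtain ⟨c2, hc2, hs2⟩ := hB a2 (mem_union_right _ ha2) b2 (mem_union_right _ hb2)
  have c1w1 : w1.ev c1 = 0 := seg_zero w1 hs1 (h1 a1 (mem_union_left _ ha1)).1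
    (h1 b1 (mem_union_right _ hb1)).1
  have c1w2 : 0 < w2.ev c1 := seg_pos_l w2 hs1 (h1 a1 (mem_union_left _ ha1)).2
    (h1 b1 (mem_union_right _ hb1)).2.le
  have c1φ : φ.ev c1 ≤ 0 := seg_nonpos φ hs1 (hφ1 a1 (mem_union_left _ ha1))
    (hφ1 b1 (mem_union_right _ hb1))
  have c2w2 : w2.ev c2 = 0 := seg_zero w2 hs2 (h2 a2 (mem_union_left _ ha2))
    (h2 b2 (mem_union_right _ hb2))
  have d12 : Disjoint D1 D2 := by
    rw [disjoint_left]
    intro c hc hc'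
    exact absurd (hD2p c hc').1 (not_lt.mpr (hD1p c hc).1)
  have e1 : c1 ∉ D1 ∪ D2 := by
    intro h
    rcases mem_union.mp h with h | h
    · exact (hD1p c1 h).2.2 c1w1
    · exact absurd (hD2p c1 h).1 (not_lt.mpr c1φ)
  have e2 : c2 ∉ insert c1 (D1 ∪ D2) := by
    intro h
    rcases mem_insert.mp h with h | h
    · rw [h] at c2w2; exact c1w2.ne' c2w2
    · rcases mem_union.mp h with h | h
      · exact (hD1p c2 h).2.1.ne' c2w2
      · exact (hD2p c2 h).2.ne' c2w2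
  have hcard : (insert c2 (insert c1 (D1 ∪ D2))).card = D1.card + D2.card + 1 + 1 := by
    rw [card_insert_of_notMem e2, card_insert_of_notMem e1, card_union_of_disjoint d12]
  have hle : (insert c2 (insert c1 (D1 ∪ D2))).card ≤ C.card := by
    apply card_le_card
    intro c hc
    rcases mem_insert.mp hc with rfl | hc
    · exact hc2
    rcases mem_insert.mp hc with rfl | hc
    · exact hc1
    rcases mem_union.mp hc with hc | hc
    · exact hD1C hc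
    · exact hD2C hc
  omega

/-- Two affine functionals with two common zeros have the same zero line. -/
lemma same_line (w1 w2 : Fn) (h2 : w2.NZ) (e1 e2 p : Pt) (hne : e1 ≠ e2)
    (h11 : w1.ev e1 = 0) (h12 : w1.ev e2 = 0) (h21 : w2.ev e1 = 0) (h22 : w2.ev e2 = 0)
    (hp : w2.ev p = 0) : w1.ev p = 0 := by
  obtain ⟨x1, y1⟩ := e1
  obtain ⟨x2, y2⟩ := e2
  obtain ⟨x, y⟩ := p
  simp only [Fn.ev] at *
  rcases h2 with h | h
  · -- w2.a ≠ 0
    have k1 : x2 - x1 = -(w2.b / w2.a) * (y2 - y1) := by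
      field_simp; linarith
    have k2 : x - x1 = -(w2.b / w2.a) * (y - y1) := by
      field_simp; linarith
    have hy : y2 - y1 ≠ 0 := by
      intro h0
      rw [h0, mul_zero] at k1
      apply hne
      rw [Prod.mk.injEq]
      exact ⟨by linarith, by linarith⟩
    have k3 : (w1.a * (-(w2.b / w2.a)) + w1.b) * (y2 - y1) = 0 := by
      have : w1.a * (x2 - x1) + w1.b * (y2 - y1) = 0 := by linarith
      rw [k1] at this; linarith
    have k4 : w1.a * (-(w2.b / w2.a)) + w1.b = 0 := by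
      rcases mul_eq_zero.mp k3 with h0 | h0
      · exact h0
      · exact absurd h0 hy
    have k5 : w1.a * (x - x1) + w1.b * (y - y1) = 0 := by
      rw [k2]
      have : w1.a * (-(w2.b / w2.a) * (y - y1)) + w1.b * (y - y1) =
        (w1.a * (-(w2.b / w2.a)) + w1.b) * (y - y1) := by ring
      rw [this, k4, zero_mul]
    linarith
  · have k1 : y2 - y1 = -(w2.a / w2.b) * (x2 - x1) := by
      field_simp; linarith
    have k2 : y - y1 = -(w2.a / w2.b) * (x - x1) := by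
      field_simp; linarith
    have hy : x2 - x1 ≠ 0 := by
      intro h0
      rw [h0, mul_zero] at k1
      apply hne
      rw [Prod.mk.injEq]
      exact ⟨by linarith, by linarith⟩
    have k3 : (w1.b * (-(w2.a / w2.b)) + w1.a) * (x2 - x1) = 0 := by
      have : w1.a * (x2 - x1) + w1.b * (y2 - y1) = 0 := by linarith
      rw [k1] at this; linarith
    have k4 : w1.b * (-(w2.a / w2.b)) + w1.a = 0 := by
      rcases mul_eq_zero.mp k3 with h0 | h0
      · exact h0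
      · exact absurd h0 hy
    have k5 : w1.a * (x - x1) + w1.b * (y - y1) = 0 := by
      rw [k2]
      have : w1.a * (x - x1) + w1.b * (-(w2.a / w2.b) * (x - x1)) =
        (w1.b * (-(w2.a / w2.b)) + w1.a) * (x - x1) := by ring
      rw [this, k4, zero_mul]
    linarith

lemma zero_between (f w ψ : Fn) (x x' : Pt) (hx : f.ev x ≤ 0) (hx' : 0 ≤ f.ev x')
    (hw : w.ev x = 0) (hw' : w.ev x' = 0) :
    ∃ z, f.ev z = 0 ∧ w.ev z = 0 ∧ (ψ.ev x < 0 → ψ.ev x' < 0 → ψ.ev z < 0) ∧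
      (0 < ψ.ev x → 0 < ψ.ev x' → 0 < ψ.ev z) := by
  rcases eq_or_lt_of_le hx with h0 | h0
  · exact ⟨x, h0, hw, fun h _ => h, fun h _ => h⟩
  rcases eq_or_lt_of_le hx' with h1 | h1
  · exact ⟨x', h1.symm, hw', fun _ h => h, fun _ h => h⟩
  have hd : 0 < f.ev x' - f.ev x := by linarith
  have hs : 0 < f.ev x' / (f.ev x' - f.ev x) := div_pos h1 hd
  have ht : 0 < -f.ev x / (f.ev x' - f.ev x) := div_pos (by linarith) hd
  have hst : f.ev x' / (f.ev x' - f.ev x) + -f.ev x / (f.ev x' - f.ev x) = 1 := by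
    rw [← add_div]; exact div_self hd.ne'
  have hz : (f.ev x' / (f.ev x' - f.ev x)) • x + (-f.ev x / (f.ev x' - f.ev x)) • x' ∈
      openSegment ℝ x x' := ⟨_, _, hs, ht, hst, rfl⟩
  refine ⟨_, ?_, seg_zero w hz hw hw', fun a b => seg_neg_l ψ hz a b.le,
    fun a b => seg_pos_l ψ hz a b.le⟩
  have h2 : f.ev ((f.ev x' / (f.ev x' - f.ev x)) • x + (-f.ev x / (f.ev x' - f.ev x)) • x') =
      (f.ev x' / (f.ev x' - f.ev x)) * f.ev x + (-f.ev x / (f.ev x' - f.ev x)) * f.ev x' := by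
    generalize f.ev x' / (f.ev x' - f.ev x) = s at *
    generalize -f.ev x / (f.ev x' - f.ev x) = t at *
    simp only [Fn.ev, Prod.fst_add, Prod.snd_add, Prod.smul_fst, Prod.smul_snd, smul_eq_mul]
    linear_combination (-f.c) * hst
  rw [h2]; field_simp; ring

/-- The count for two collinear balanced parts, first part strictly on one side of the line of
the second part. -/
lemma two_side (A1 B1 A2 B2 C : Finset Pt) (w1 w2 : Fn) (n1 n2 : ℕ) (hn1 : 1 ≤ n1)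
    (hn2 : 1 ≤ n2) (hA1 : A1.card = n1) (hB1 : B1.card = n1) (hA2 : A2.card = n2)
    (hB2 : B2.card = n2) (hd : Disjoint A2 B2) (hw2 : w2.NZ)
    (h1 : ∀ p ∈ A1 ∪ B1, w1.ev p = 0 ∧ 0 < w2.ev p) (h2 : ∀ p ∈ A2 ∪ B2, w2.ev p = 0)
    (hnc : ∃ p ∈ A2 ∪ B2, w1.ev p ≠ 0)
    (hB : Blk (A1 ∪ A2) (B1 ∪ B2) C) : n1 + n2 + 1 ≤ C.card := by
  classical
  set h : Fn := ⟨w2.b, -w2.a, 0⟩ with hh
  have hinj : ∀ p ∈ A2 ∪ B2, ∀ q ∈ A2 ∪ B2, h.ev p = h.ev q → p = q := by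
    intro p hp q hq hpq
    have e1 := h2 p hp
    have e2 := h2 q hq
    obtain ⟨x1, y1⟩ := p
    obtain ⟨x2, y2⟩ := q
    simp only [Fn.ev, hh] at e1 e2 hpq
    have k1 : w2.a * (x1 - x2) + w2.b * (y1 - y2) = 0 := by linarith
    have k2 : w2.b * (x1 - x2) - w2.a * (y1 - y2) = 0 := by linarith
    have hpos : 0 < w2.a ^ 2 + w2.b ^ 2 := by
      rcases hw2 with h | h <;> positivity
    have k3 : (w2.a ^ 2 + w2.b ^ 2) * (x1 - x2) = 0 := by
      linear_combination w2.a * k1 + w2.b * k2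
    have k4 : (w2.a ^ 2 + w2.b ^ 2) * (y1 - y2) = 0 := by
      linear_combination w2.b * k1 - w2.a * k2
    have k5 := (mul_eq_zero.mp k3).resolve_left hpos.ne'
    have k6 := (mul_eq_zero.mp k4).resolve_left hpos.ne'
    rw [Prod.mk.injEq]; exact ⟨by linarith, by linarith⟩
  have hA2n : A2.Nonempty := card_pos.mp (by omega)
  have hB2n : B2.Nonempty := card_pos.mp (by omega)
  have hne : (A2 ∪ B2).Nonempty := hA2n.mono subset_union_left
  obtain ⟨e1, he1, hmin⟩ := exists_min_image (A2 ∪ B2) (fun p => h.ev p) hne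
  obtain ⟨e2, he2, hmax⟩ := exists_max_image (A2 ∪ B2) (fun p => h.ev p) hne
  by_cases c1 : w1.ev e1 = 0
  · by_cases c2 : w1.ev e2 = 0
    · exfalso
      have hne12 : e1 ≠ e2 := by
        intro heq
        obtain ⟨a, ha⟩ := hA2n
        obtain ⟨b, hb⟩ := hB2n
        have k1 : h.ev a = h.ev b := by
          have r1 := hmin a (mem_union_left _ ha)
          have r2 := hmax a (mem_union_left _ ha)
          have r3 := hmin b (mem_union_right _ hb)
          have r4 := hmax b (mem_union_right _ hb)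
          rw [← heq] at r2 r4
          linarith
        have := hinj a (mem_union_left _ ha) b (mem_union_right _ hb) k1
        rw [this] at ha
        exact (disjoint_left.mp hd ha) hb
      obtain ⟨p, hp, hp0⟩ := hnc
      exact hp0 (same_line w1 w2 hw2 e1 e2 p hne12 c1 c2 (h2 e1 he1) (h2 e2 he2) (h2 p hp))
    · refine two_aux A1 B1 A2 B2 C w1 w2 ⟨-h.a, -h.b, h.ev e2 - h.c⟩ n1 n2 hn1 hn2 hA1 hB1 hA2 hB2
        h1 h2 e2 he2 c2 ?_ ?_ hB
      · simp only [Fn.ev]; ring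
      · intro p hp hpe
        have r1 := hmax p hp
        have r2 : h.ev p ≠ h.ev e2 := fun hq => hpe (hinj p hp e2 he2 hq)
        have r3 : h.ev p < h.ev e2 := lt_of_le_of_ne r1 r2
        have r4 : (⟨-h.a, -h.b, h.ev e2 - h.c⟩ : Fn).ev p = h.ev e2 - h.ev p := by
          simp only [Fn.ev]; ring
        rw [r4]; linarith
  · refine two_aux A1 B1 A2 B2 C w1 w2 ⟨h.a, h.b, h.c - h.ev e1⟩ n1 n2 hn1 hn2 hA1 hB1 hA2 hB2
      h1 h2 e1 he1 c1 ?_ ?_ hB
    · simp only [Fn.ev]; ring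
    · intro p hp hpe
      have r1 := hmin p hp
      have r2 : h.ev e1 ≠ h.ev p := fun hq => hpe (hinj p hp e1 he1 hq.symm)
      have r3 : h.ev e1 < h.ev p := lt_of_le_of_ne r1 r2
      have r4 : (⟨h.a, h.b, h.c - h.ev e1⟩ : Fn).ev p = h.ev p - h.ev e1 := by
        simp only [Fn.ev]; ring
      rw [r4]; linarith

/-- The count for two separated collinear balanced parts on different lines. -/
lemma two_lines (A1 B1 A2 B2 C : Finset Pt) (ψ w1 w2 : Fn) (n1 n2 : ℕ) (hn1 : 1 ≤ n1)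
    (hn2 : 1 ≤ n2) (hA1 : A1.card = n1) (hB1 : B1.card = n1) (hA2 : A2.card = n2)
    (hB2 : B2.card = n2) (hd1 : Disjoint A1 B1) (hd : Disjoint A2 B2) (hw1 : w1.NZ) (hw2 : w2.NZ)
    (hψ1 : ∀ p ∈ A1 ∪ B1, ψ.ev p < 0) (hψ2 : ∀ p ∈ A2 ∪ B2, 0 < ψ.ev p)
    (h1 : ∀ p ∈ A1 ∪ B1, w1.ev p = 0) (h2 : ∀ p ∈ A2 ∪ B2, w2.ev p = 0)
    (hnc : ¬ Coll ((A1 ∪ A2) ∪ (B1 ∪ B2)))
    (hB : Blk (A1 ∪ A2) (B1 ∪ B2) C) : n1 + n2 + 1 ≤ C.card := by
  classical
  have hnc1 : ∃ p ∈ A2 ∪ B2, w1.ev p ≠ 0 := by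
    by_contra hcon
    push Not at hcon
    apply hnc
    refine ⟨w1, hw1, fun p hp => ?_⟩
    simp only [mem_union] at hp h1 hcon
    rcases hp with (hp | hp) | (hp | hp)
    · exact h1 p (Or.inl hp)
    · exact hcon p (Or.inl hp)
    · exact h1 p (Or.inr hp)
    · exact hcon p (Or.inr hp)
  have hnc2 : ∃ p ∈ A1 ∪ B1, w2.ev p ≠ 0 := by
    by_contra hcon
    push Not at hcon
    apply hnc
    refine ⟨w2, hw2, fun p hp => ?_⟩
    simp only [mem_union] at hp h2 hcon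
    rcases hp with (hp | hp) | (hp | hp)
    · exact hcon p (Or.inl hp)
    · exact h2 p (Or.inl hp)
    · exact hcon p (Or.inr hp)
    · exact h2 p (Or.inr hp)
  have hB' : Blk (A2 ∪ A1) (B2 ∪ B1) C := by
    intro a ha b hb
    exact hB a (by rw [union_comm]; exact ha) b (by rw [union_comm]; exact hb)
  by_cases s1 : ∀ p ∈ A1 ∪ B1, 0 < w2.ev p
  · exact two_side A1 B1 A2 B2 C w1 w2 n1 n2 hn1 hn2 hA1 hB1 hA2 hB2 hd hw2
      (fun p hp => ⟨h1 p hp, s1 p hp⟩) h2 hnc1 hB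
  by_cases s2 : ∀ p ∈ A1 ∪ B1, w2.ev p < 0
  · exact two_side A1 B1 A2 B2 C w1 w2.opp n1 n2 hn1 hn2 hA1 hB1 hA2 hB2 hd (NZ_opp hw2)
      (fun p hp => ⟨h1 p hp, by rw [ev_opp]; linarith [s2 p hp]⟩)
      (fun p hp => by rw [ev_opp, h2 p hp, neg_zero]) hnc1 hB
  by_cases s3 : ∀ p ∈ A2 ∪ B2, 0 < w1.ev p
  · have := two_side A2 B2 A1 B1 C w2 w1 n2 n1 hn2 hn1 hA2 hB2 hA1 hB1 hd1 hw1
      (fun p hp => ⟨h2 p hp, s3 p hp⟩) h1 hnc2 hB'
    omega
  by_cases s4 : ∀ p ∈ A2 ∪ B2, w1.ev p < 0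
  · have := two_side A2 B2 A1 B1 C w2 w1.opp n2 n1 hn2 hn1 hA2 hB2 hA1 hB1 hd1 (NZ_opp hw1)
      (fun p hp => ⟨h2 p hp, by rw [ev_opp]; linarith [s4 p hp]⟩)
      (fun p hp => by rw [ev_opp, h1 p hp, neg_zero]) hnc2 hB'
    omega
  exfalso
  push Not at s1 s2 s3 s4
  obtain ⟨x, hx, hx0⟩ := s1
  obtain ⟨x', hx', hx0'⟩ := s2
  obtain ⟨y, hy, hy0⟩ := s3
  obtain ⟨y', hy', hy0'⟩ := s4
  obtain ⟨z, hz2, hz1, hzψ, -⟩ := zero_between w2 w1 ψ x x' hx0 hx0' (h1 x hx) (h1 x' hx')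
  obtain ⟨u, hu1, hu2, -, huψ⟩ := zero_between w1 w2 ψ y y' hy0 hy0' (h2 y hy) (h2 y' hy')
  have k1 := hzψ (hψ1 x hx) (hψ1 x' hx')
  have k2 := huψ (hψ2 y hy) (hψ2 y' hy')
  have hne : z ≠ u := by
    intro h; rw [h] at k1; exact absurd k1 (not_lt.mpr k2.le)
  obtain ⟨p, hp, hp0⟩ := hnc1
  exact hp0 (same_line w1 w2 hw2 z u p hne hz1 hu1 hz2 hu2 (h2 p hp))

end Pool.Vis
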